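import Pool.Agent.N906.QP.AllL
import Pool.Agent.N906.LD.Up

/-!
# Project LD: large deviation principle for the radicals of the violators
-/

set_option autoImplicit false
set_option linter.unusedSectionVars false
set_option linter.unusedVariables false
set_option maxHeartbeats 4000000

namespace Pool.Agent.N906.LD

open NumberField IsDedekindDomain Finset Filter Topology Module Pool.Agent.H691R3 Pool.Agent.W223.AK
open Pool.Agent.N906.KG Pool.Agent.N170.KG Pool.Agent.N906.QP.Aff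

theorem ratio {d : ℝ} (hd : 0 < d) (t : ℝ) {ε : ℝ} (hε : 0 < ε) :
    ∀ᶠ L : ℝ in atTop, t * √(d * L / Real.log (d * L)) ≤ (t * √d + ε) * √(L / Real.log L) := by
  have h1 : Tendsto (fun L : ℝ => Real.log L / (Real.log d + Real.log L)) atTop (𝓝 1) := by
    have h2 : Tendsto (fun L : ℝ => Real.log d / Real.log L) atTop (𝓝 0) :=
      tendsto_const_nhds.div_atTop Real.tendsto_log_atTop
    have h3 : Tendsto (fun L : ℝ => 1 / (Real.log d / Real.log L + 1)) atTop (𝓝 (1 / (0 + 1))) :=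
      tendsto_const_nhds.div (h2.add_const 1) (by norm_num)
    rw [zero_add, div_one] at h3
    refine h3.congr' ?_
    filter_upwards [Real.tendsto_log_atTop.eventually_ge_atTop 1] with L hL
    have : Real.log L ≠ 0 := by linarith
    rw [div_add_one this, one_div_div]
  have h4 : Tendsto (fun L : ℝ => √(d * (Real.log L / (Real.log d + Real.log L)))) atTop
      (𝓝 √(d * 1)) := (Real.continuous_sqrt.tendsto _).comp (h1.const_mul d)
  have h5 : Tendsto (fun L : ℝ => t * √(d * (Real.log L / (Real.log d + Real.log L)))) atTop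
      (𝓝 (t * √(d * 1))) := h4.const_mul t
  rw [mul_one] at h5
  have h6 := h5.eventually_lt_const (show t * √d < t * √d + ε by linarith)
  filter_upwards [h6, Real.tendsto_log_atTop.eventually_ge_atTop 1, eventually_ge_atTop (1 : ℝ),
    Real.tendsto_log_atTop.eventually_ge_atTop (1 - Real.log d)] with L h7 h8 h9 h10
  have hL : 0 < L := by linarith
  have e0 : Real.log (d * L) = Real.log d + Real.log L := Real.log_mul hd.ne' hL.ne'
  have e2 : 0 < Real.log d + Real.log L := by linarith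
  have e3 : 0 < Real.log L := by linarith
  have e1 : √(d * L / Real.log (d * L)) =
      √(d * (Real.log L / (Real.log d + Real.log L))) * √(L / Real.log L) := by
    rw [← Real.sqrt_mul (by positivity), e0]
    congr 1
    field_simp
  rw [e1, ← mul_assoc]
  exact mul_le_mul_of_nonneg_right h7.le (Real.sqrt_nonneg _)

theorem W_large (M : ℝ) : ∀ᶠ X : ℝ in atTop, M ≤ √(X / Real.log X) := by
  have h := Pool.Agent.N575.QP.poly (η := 1) (A := Real.exp (3 * M)) one_pos (Real.exp_pos _) 0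
  filter_upwards [h] with X hX
  rw [pow_zero, mul_one, Real.exp_le_exp, one_mul, mul_div_assoc,
    Real.sqrt_mul (by norm_num)] at hX
  have h8 : √8 ≤ (3 : ℝ) := by rw [Real.sqrt_le_left (by norm_num)]; norm_num
  have h9 : √8 * √(X / Real.log X) ≤ 3 * √(X / Real.log X) :=
    mul_le_mul_of_nonneg_right h8 (Real.sqrt_nonneg _)
  linarith

/-- bounds from a limit -/
theorem of_lim {N : ℝ → ℕ} {a c : ℝ} (ha : 0 < a)
    (h : Tendsto (fun B : ℝ => (Real.log (N B : ℝ) - a * Real.log B) /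
      √(Real.log B / Real.log (Real.log B))) atTop (𝓝 c)) {ε : ℝ} (hε : 0 < ε) :
    ∀ᶠ B : ℝ in atTop,
      Real.exp (a * Real.log B + (c - ε) * √(Real.log B / Real.log (Real.log B))) ≤ N B ∧
      (N B : ℝ) ≤ Real.exp (a * Real.log B + (c + ε) * √(Real.log B / Real.log (Real.log B))) := by
  have h1 := h.eventually_lt_const (show c < c + ε by linarith)
  have h2 := h.eventually_const_lt (show c - ε < c by linarith)
  have h3 := Real.tendsto_log_atTop.eventually (W_large 1)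
  have h4 := Real.tendsto_log_atTop.eventually (small (t := c - ε) (δ := a / 2) (by positivity))
  filter_upwards [h1, h2, h3, h4, Real.tendsto_log_atTop.eventually_ge_atTop 1] with B g1 g2 g3 g4 g5
  obtain ⟨W, hW⟩ : ∃ W : ℝ, W = √(Real.log B / Real.log (Real.log B)) := ⟨_, rfl⟩
  rw [← hW] at g1 g2 g3 g4 ⊢
  have hW0 : 0 < W := by linarith
  rw [div_lt_iff₀ hW0] at g1
  rw [lt_div_iff₀ hW0] at g2
  have e1 : -(a / 2 * Real.log B) ≤ (c - ε) * W := by
    have e2 : |(c - ε) * W| = |c - ε| * W := by rw [abs_mul, abs_of_nonneg hW0.le]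
    have e3 := neg_abs_le ((c - ε) * W)
    rw [e2] at e3
    linarith
  have e4 : 0 < a / 2 * Real.log B := by
    have : 0 < Real.log B := by linarith
    positivity
  have hN : 0 < N B := by
    rcases Nat.eq_zero_or_pos (N B) with h0 | h0
    · rw [h0] at g2
      simp only [Nat.cast_zero, Real.log_zero] at g2
      linarith
    · exact h0
  have hN' : (0 : ℝ) < N B := by exact_mod_cast hN
  constructor
  · rw [← Real.le_log_iff_exp_le hN']
    linarith
  · rw [← Real.log_le_iff_le_exp hN']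
    linarith

variable {K : Type} [Field K] [NumberField K]

/-- the shares of the three radicals -/
noncomputable def sh (x : K) : Fin 3 → ℝ :=
  ![1 - QP.Aff.cond x / hgt x, 1 - QP.Aff.cond x⁻¹ / hgt x, 1 - QP.Aff.cond (x - 1) / hgt x]

theorem hr_eq (x : K) : hr (aff x) = finrank ℚ K * hgt x := by
  have hd : (0 : ℝ) < finrank ℚ K := fin_pos
  have l1 : Height.logHeight (pt x).rep = hr (aff x) := by rw [ht_rep, (pt_rep x).2]
  have l2 : hgt x = hr (aff x) / finrank ℚ K := by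
    rw [← hh_pt]
    unfold hh
    rw [l1]
  rw [l2]
  field_simp

/-- the conductors in terms of the counting functions -/
theorem sh_mul {x : K} (h0 : x ≠ 0) (h1 : x ≠ 1) (hp : 0 < hgt x) (l : Fin 3) :
    (1 - sh x l) * hr (aff x) = finrank ℚ K * ncl (∅ : Set (Pr K)) (al3 K l) (pt x) := by
  rw [hr_eq]
  fin_cases l
  · show (1 - (1 - QP.Aff.cond x / hgt x)) * (finrank ℚ K * hgt x) = _ * ncl _ (al3 K 0) (pt x)
    rw [ncl0 h0]
    field_simp
    ring
  · show (1 - (1 - QP.Aff.cond x⁻¹ / hgt x)) * (finrank ℚ K * hgt x) = _ * ncl _ (al3 K 1) (pt x)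
    rw [ncl1 h0]
    field_simp
    ring
  · show (1 - (1 - QP.Aff.cond (x - 1) / hgt x)) * (finrank ℚ K * hgt x) = _ * ncl _ (al3 K 2) (pt x)
    rw [ncl2 h1]
    field_simp
    ring

theorem up_fin (z : InfinitePlace K → ℂ) (η κ c : ℝ) (hz : ∀ w, w.IsReal → (z w).im = 0)
    (hη : 0 < η) (hκ0 : 0 < κ) (hκ1 : κ < 1) {E : Set (Fin 3 → ℝ)} (hE : IsClosed E) {s : ℝ}
    (hs : ∀ y ∈ E, (∀ l, 0 ≤ y l) → ∑ l, y l = κ → ∑ l, √(8 * y l * finrank ℚ K) ≤ s) {ε : ℝ}
    (hε : 0 < ε) :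
    ∀ᶠ B : ℝ in atTop, (({x | x ∈ XQ z η κ c B ∧ sh x ∈ E} : Set K).ncard : ℝ) ≤
      Real.exp (finrank ℚ K * (2 - κ) * Real.log B +
        (s + ε) * √(Real.log B / Real.log (Real.log B))) := by
  classical
  have hd : (0 : ℝ) < finrank ℚ K := fin_pos
  have hsd : 0 < √(finrank ℚ K : ℝ) := Real.sqrt_pos.2 hd
  have hA := al_pr (al3_ne (K := K)) al3_dist
  obtain ⟨S, hG, hTS⟩ := Pool.Agent.N340.QP.good_set (basq_all K) (q := 3) (by norm_num)
    (T := (∅ : Set (Pr K))) Set.finite_empty hA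
  obtain ⟨-, hA2⟩ := basq_all K 3 (pr (al3 K)) (by norm_num) hA
  obtain ⟨C₁, -, hA3⟩ := hA2 _ hG
  have hC₀ : 0 ≤ ∑ v ∈ S, Real.log (Nv v) + finrank ℚ K * |c| :=
    add_nonneg (sum_nonneg fun v _ => (log_Nv_pos v).le) (by positivity)
  obtain ⟨X₀, hX₀, hup⟩ := upld K 3 1 (by norm_num) le_rfl (basq_all K) (cellq_all K) (rank_all K)
    (Pool.Agent.N654.QP.bigq3 K) (pr (al3 K)) S κ (s / √(finrank ℚ K : ℝ))
    (ε / (4 * √(finrank ℚ K : ℝ))) (∑ v ∈ S, Real.log (Nv v) + finrank ℚ K * |c|) E hE hA hG hκ0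
    hκ1 (by positivity) hC₀ (by
      intro y hy hy0 hys
      rw [le_div_iff₀ hsd, Finset.sum_mul]
      refine le_trans (le_of_eq (Finset.sum_congr rfl fun l _ => ?_)) (hs y hy hy0 hys)
      rw [← Real.sqrt_mul (by have := hy0 l; positivity)])
  have ev1 := ratio hd (s / √(finrank ℚ K : ℝ) + ε / (4 * √(finrank ℚ K : ℝ)))
    (show 0 < ε / 2 by positivity)
  filter_upwards [Real.tendsto_log_atTop.eventually ev1,
    Real.tendsto_log_atTop.eventually_ge_atTop (X₀ / finrank ℚ K),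
    eventually_gt_atTop (0 : ℝ)] with B g1 g2 g3
  obtain ⟨L, hL⟩ : ∃ L : ℝ, L = Real.log B := ⟨_, rfl⟩
  have hB : B = Real.exp L := by rw [hL, Real.exp_log g3]
  rw [← hL] at g1 g2 ⊢
  rw [div_le_iff₀ hd] at g2
  have hfin : ({x | x ∈ XQ z η κ c B ∧ sh x ∈ E} : Set K).Finite :=
    ((xq_limit z η κ c hz hη hκ0 hκ1).1 B).subset fun x hx => hx.1
  obtain ⟨F, hF⟩ : ∃ F : Finset K, F = hfin.toFinset := ⟨_, rfl⟩
  have hcard : ({x | x ∈ XQ z η κ c B ∧ sh x ∈ E} : Set K).ncard = F.card := by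
    rw [hF, Set.ncard_eq_toFinset_card _ hfin]
  rw [hcard]
  refine (hup (finrank ℚ K * L) F (by linarith) ?_).trans ?_
  · intro x hx
    rw [hF, Set.Finite.mem_toFinset] at hx
    obtain ⟨⟨x0, x1, x2, -, x3⟩, x4⟩ := hx
    have hoff := (off_iff x).2 ⟨x0, x1⟩
    obtain ⟨n1, e1⟩ := pt_rep x
    have o1 : Of (pr (al3 K)) x := by
      have := of_rep n1 hoff
      rwa [e1] at this
    obtain ⟨P, hP⟩ := (hA3 _ o1).1
    have hcop := ((hA3 _ o1).2.1 P hP).1
    have hb : ∀ l, rl (P l) ≤ finrank ℚ K * ncl (∅ : Set (Pr K)) (al3 K l) (pt x) ∧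
        finrank ℚ K * ncl (∅ : Set (Pr K)) (al3 K l) (pt x) ≤
          rl (P l) + ∑ v ∈ S, Real.log (Nv v) := fun l =>
      Pool.Agent.N401.QP.ncl_bounds (Set.empty_subset _) al3_ne n1 hoff (by rw [e1]; exact hP) l
    have hS0 : 0 ≤ ∑ v ∈ S, Real.log (Nv v) := sum_nonneg fun v _ => (log_Nv_pos v).le
    have hc0 : 0 ≤ (finrank ℚ K : ℝ) * |c| := by positivity
    refine ⟨o1, ?_, P, hP, ?_, fun hp => ⟨sh x, x4, fun l => ?_⟩⟩
    · rw [hr_eq]
      apply mul_le_mul_of_nonneg_left _ hd.le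
      rw [hB] at x2
      exact Real.exp_le_exp.1 x2
    · rw [Pool.Agent.N340.QP.tr_eq hcop]
      have m1 : ∑ l, rl (P l) ≤
          finrank ℚ K * ∑ l, ncl (∅ : Set (Pr K)) (al3 K l) (pt x) := by
        rw [mul_sum]
        exact sum_le_sum fun l _ => (hb l).1
      rw [sum_ncl x0 x1] at m1
      have m2 : (finrank ℚ K : ℝ) * (QP.Aff.cond x + QP.Aff.cond x⁻¹ + QP.Aff.cond (x - 1)) ≤
          finrank ℚ K * ((3 - κ) * hgt x + c) := mul_le_mul_of_nonneg_left x3 hd.le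
      have m3 := mul_le_mul_of_nonneg_left (le_abs_self c) hd.le
      rw [hr_eq]
      push_cast
      linarith
    · have hgp : 0 < hgt x := by
        rw [hr_eq] at hp
        exact (mul_pos_iff_of_pos_left hd).1 hp
      rw [sh_mul x0 x1 hgp l]
      obtain ⟨b1, b2⟩ := hb l
      apply abs_le.2
      constructor <;> linarith
  · apply Real.exp_le_exp.2
    have e1 : (s / √(finrank ℚ K : ℝ) + ε / (4 * √(finrank ℚ K : ℝ))) * √(finrank ℚ K : ℝ) =
        s + ε / 4 := by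
      field_simp
    rw [e1] at g1
    have e2 : 0 ≤ ε / 4 * √(L / Real.log L) := by positivity
    linarith

theorem low_fin (z : InfinitePlace K → ℂ) (η κ c : ℝ) (hz : ∀ w, w.IsReal → (z w).im = 0)
    (hη : 0 < η) (hκ0 : 0 < κ) (hκ1 : κ < 1) {O : Set (Fin 3 → ℝ)} (hO : IsOpen O)
    {y : Fin 3 → ℝ} (hy : y ∈ O) (hy0 : ∀ l, 0 ≤ y l) (hys : ∑ l, y l = κ) {ε : ℝ} (hε : 0 < ε) :
    ∀ᶠ B : ℝ in atTop, Real.exp (finrank ℚ K * (2 - κ) * Real.log B +
        ((∑ l, √(8 * y l * finrank ℚ K)) - ε) * √(Real.log B / Real.log (Real.log B))) ≤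
      (({x | x ∈ XQ z η κ c B ∧ sh x ∈ O} : Set K).ncard : ℝ) := by
  classical
  have hd : (0 : ℝ) < finrank ℚ K := fin_pos
  -- a small box
  obtain ⟨r, hr0, hball⟩ := Metric.isOpen_iff.1 hO y hy
  obtain ⟨ρ, hρ⟩ : ∃ ρ : ℝ, ρ = min (r / 2) ((1 - κ) / 2) := ⟨_, rfl⟩
  have hρ0 : 0 < ρ := by rw [hρ]; exact lt_min (by positivity) (by linarith)
  have hρ1 : ρ ≤ r / 2 := by rw [hρ]; exact min_le_left _ _
  have hρ2 : ρ ≤ (1 - κ) / 2 := by rw [hρ]; exact min_le_right _ _
  obtain ⟨f1, l1⟩ := xj_limit z η y (-|c|) hz hη hy0 (by rw [hys]; exact hκ0)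
    (by rw [hys]; exact hκ1)
  obtain ⟨f2, l2⟩ := xq_limit z η (κ + ρ) 0 hz hη (by linarith) (by linarith)
  rw [hys] at l1
  have b1 := of_lim (a := finrank ℚ K * (2 - κ)) (by apply mul_pos hd; linarith) l1
    (show 0 < ε / 2 by positivity)
  have b2 := of_lim (a := finrank ℚ K * (2 - (κ + ρ))) (by apply mul_pos hd; linarith) l2 one_pos
  have ev := Real.tendsto_log_atTop.eventually (small
    (t := √(24 * (κ + ρ) * finrank ℚ K) + 1 - ((∑ l, √(8 * y l * finrank ℚ K)) - ε))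
    (δ := finrank ℚ K * ρ / 2) (by positivity))
  have ev2 := Real.tendsto_log_atTop.eventually (W_large (2 / ε))
  filter_upwards [b1, b2, ev, ev2, Real.tendsto_log_atTop.eventually_ge_atTop
    (2 / (finrank ℚ K * ρ))] with B g1 g2 g3 g4 g5
  obtain ⟨W, hW⟩ : ∃ W : ℝ, W = √(Real.log B / Real.log (Real.log B)) := ⟨_, rfl⟩
  obtain ⟨L, hL⟩ : ∃ L : ℝ, L = Real.log B := ⟨_, rfl⟩
  rw [← hW] at g1 g2 g3 g4 ⊢
  rw [← hL] at g1 g2 g3 g5 ⊢
  obtain ⟨σ, hσ⟩ : ∃ σ : ℝ, σ = ∑ l, √(8 * y l * finrank ℚ K) := ⟨_, rfl⟩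
  obtain ⟨τ, hτ⟩ : ∃ τ : ℝ, τ = √(24 * (κ + ρ) * finrank ℚ K) := ⟨_, rfl⟩
  rw [← hσ] at g1 g3 ⊢
  rw [← hτ] at g2 g3
  have hfin : ({x | x ∈ XQ z η κ c B ∧ sh x ∈ O} : Set K).Finite :=
    ((xq_limit z η κ c hz hη hκ0 hκ1).1 B).subset fun x hx => hx.1
  have hsub : XJ z η y (-|c|) B ⊆
      ({x | x ∈ XQ z η κ c B ∧ sh x ∈ O} : Set K) ∪ XQ z η (κ + ρ) 0 B := by
    rintro x ⟨x0, x1, x2, x3, k0, k1, k2⟩
    have hc := abs_nonneg c
    have hc' := neg_abs_le c
    have hsum : y 0 + y 1 + y 2 = κ := by rw [← hys, Fin.sum_univ_three]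
    have hg0 : 0 ≤ hgt x := by
      have := hr_aff_nonneg x
      rw [hr_eq] at this
      exact nonneg_of_mul_nonneg_right this hd
    by_cases hx : nn x ≤ (3 - (κ + ρ)) * hgt x + 0
    · exact Or.inr ⟨x0, x1, x2, x3, hx⟩
    · left
      push Not at hx
      unfold nn at hx
      have hgy : (y 0 + y 1 + y 2) * hgt x = κ * hgt x := by rw [hsum]
      have hgp : 0 < hgt x := by
        rcases hg0.lt_or_eq with h | h
        · exact h
        · exfalso
          rw [← h] at hx k0 k1 k2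
          linarith
      refine ⟨⟨x0, x1, x2, x3, ?_⟩, hball ?_⟩
      · unfold nn
        linarith
      · rw [Metric.mem_ball, dist_pi_lt_iff hr0]
        have key : ∀ a t : ℝ, a ≤ (1 - t) * hgt x + -|c| → (1 - t - ρ) * hgt x < a →
            dist (1 - a / hgt x) t < r := by
          intro a t h1 h2
          rw [Real.dist_eq]
          have e1 : a / hgt x ≤ 1 - t := by
            rw [div_le_iff₀ hgp]
            linarith
          have e2 : 1 - t - ρ < a / hgt x := by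
            rw [lt_div_iff₀ hgp]
            exact h2
          rw [abs_lt]
          constructor <;> linarith
        intro l
        fin_cases l
        · exact key (QP.Aff.cond x) (y 0) k0 (by linarith)
        · exact key (QP.Aff.cond x⁻¹) (y 1) k1 (by linarith)
        · exact key (QP.Aff.cond (x - 1)) (y 2) k2 (by linarith)
  have hn1 : ((XJ z η y (-|c|) B).ncard : ℝ) ≤
      (({x | x ∈ XQ z η κ c B ∧ sh x ∈ O} : Set K).ncard : ℝ) +
        ((XQ z η (κ + ρ) 0 B).ncard : ℝ) := by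
    have e1 := Set.ncard_le_ncard hsub (hfin.union (f2 B))
    have e2 := Set.ncard_union_le ({x | x ∈ XQ z η κ c B ∧ sh x ∈ O} : Set K)
      (XQ z η (κ + ρ) 0 B)
    exact_mod_cast e1.trans e2
  have hWp : 0 < W := lt_of_lt_of_le (by positivity) g4
  have hW2 : 1 ≤ ε / 2 * W := by
    rw [div_le_iff₀ hε] at g4
    linarith
  have hL2 : 1 ≤ finrank ℚ K * ρ / 2 * L := by
    rw [div_le_iff₀ (by positivity)] at g5
    linarith
  have two : (2 : ℝ) ≤ Real.exp 1 := by
    have := Real.add_one_le_exp (1 : ℝ)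
    linarith
  have m1 : 2 * Real.exp (finrank ℚ K * (2 - κ) * L + (σ - ε) * W) ≤
      Real.exp (finrank ℚ K * (2 - κ) * L + (σ - ε / 2) * W) := by
    calc 2 * Real.exp (finrank ℚ K * (2 - κ) * L + (σ - ε) * W)
        ≤ Real.exp 1 * Real.exp (finrank ℚ K * (2 - κ) * L + (σ - ε) * W) :=
          mul_le_mul_of_nonneg_right two (Real.exp_pos _).le
      _ ≤ _ := by
          rw [← Real.exp_add]
          apply Real.exp_le_exp.2
          linarith
  have m2 : Real.exp (finrank ℚ K * (2 - (κ + ρ)) * L + (τ + 1) * W) ≤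
      Real.exp (finrank ℚ K * (2 - κ) * L + (σ - ε) * W) := by
    apply Real.exp_le_exp.2
    have e1 : (τ + 1 - (σ - ε)) * W ≤ |τ + 1 - (σ - ε)| * W :=
      mul_le_mul_of_nonneg_right (le_abs_self _) hWp.le
    have e2 : 0 ≤ finrank ℚ K * ρ / 2 * L := by linarith
    linarith
  linarith [g1.1, g2.2]

/-- the large deviation principle and the law of large numbers -/
theorem ldp (z : InfinitePlace K → ℂ) (η κ c : ℝ) (hz : ∀ w, w.IsReal → (z w).im = 0)
    (hη : 0 < η) (hκ0 : 0 < κ) (hκ1 : κ < 1) :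
    (∀ (E : Set (Fin 3 → ℝ)) (r : ℝ), IsClosed E →
      (∀ y ∈ E, (∀ l, 0 ≤ y l) → ∑ l, y l = κ →
        r ≤ √(24 * κ * finrank ℚ K) - ∑ l, √(8 * y l * finrank ℚ K)) → ∀ ε : ℝ, 0 < ε →
      ∀ᶠ B : ℝ in atTop, (({x | x ∈ XQ z η κ c B ∧ sh x ∈ E} : Set K).ncard : ℝ) ≤
        Real.exp (-(r - ε) * √(Real.log B / Real.log (Real.log B))) *
          ((XQ z η κ c B).ncard : ℝ)) ∧
    (∀ (O : Set (Fin 3 → ℝ)) (y : Fin 3 → ℝ), IsOpen O → y ∈ O → (∀ l, 0 ≤ y l) →
      ∑ l, y l = κ → ∀ ε : ℝ, 0 < ε →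
      ∀ᶠ B : ℝ in atTop, Real.exp (-((√(24 * κ * finrank ℚ K) -
          ∑ l, √(8 * y l * finrank ℚ K)) + ε) * √(Real.log B / Real.log (Real.log B))) *
          ((XQ z η κ c B).ncard : ℝ) ≤
        (({x | x ∈ XQ z η κ c B ∧ sh x ∈ O} : Set K).ncard : ℝ)) := by
  have hd : (0 : ℝ) < finrank ℚ K := fin_pos
  have l1 := (xq_limit z η κ c hz hη hκ0 hκ1).2
  have ha : 0 < finrank ℚ K * (2 - κ) := by apply mul_pos hd; linarith
  refine ⟨fun E r hE hr ε hε => ?_, fun O y hO hy hy0 hys ε hε => ?_⟩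
  · have b1 := of_lim ha l1 (show 0 < ε / 2 by positivity)
    have b2 := up_fin z η κ c hz hη hκ0 hκ1 hE (s := √(24 * κ * finrank ℚ K) - r)
      (fun y h1 h2 h3 => by have := hr y h1 h2 h3; linarith) (show 0 < ε / 2 by positivity)
    filter_upwards [b1, b2] with B g1 g2
    refine g2.trans ?_
    refine le_trans ?_ (mul_le_mul_of_nonneg_left g1.1 (Real.exp_pos _).le)
    rw [← Real.exp_add]
    apply Real.exp_le_exp.2
    linarith
  · have b1 := of_lim ha l1 (show 0 < ε / 2 by positivity)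
    have b2 := low_fin z η κ c hz hη hκ0 hκ1 hO hy hy0 hys (show 0 < ε / 2 by positivity)
    filter_upwards [b1, b2] with B g1 g2
    refine le_trans ?_ g2
    refine (mul_le_mul_of_nonneg_left g1.2 (Real.exp_pos _).le).trans ?_
    rw [← Real.exp_add]
    apply Real.exp_le_exp.2
    linarith

theorem lln (z : InfinitePlace K → ℂ) (η κ c : ℝ) (hz : ∀ w, w.IsReal → (z w).im = 0)
    (hη : 0 < η) (hκ0 : 0 < κ) (hκ1 : κ < 1) {ε : ℝ} (hε : 0 < ε) :
    Tendsto (fun B : ℝ => (({x | x ∈ XQ z η κ c B ∧ ∀ l, |sh x l - κ / 3| < ε} :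
      Set K).ncard : ℝ) / ((XQ z η κ c B).ncard : ℝ)) atTop (𝓝 1) := by
  classical
  have hd : (0 : ℝ) < finrank ℚ K := fin_pos
  obtain ⟨fin1, l1⟩ := xq_limit z η κ c hz hη hκ0 hκ1
  have ha : 0 < finrank ℚ K * (2 - κ) := by apply mul_pos hd; linarith
  obtain ⟨E, hE⟩ : ∃ E : Set (Fin 3 → ℝ), E = {y | ∃ l, ε ≤ |y l - κ / 3|} := ⟨_, rfl⟩
  have hEc : IsClosed E := by
    have : E = ⋃ l, {y : Fin 3 → ℝ | ε ≤ |y l - κ / 3|} := by
      rw [hE]
      ext y
      simp
    rw [this]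
    refine isClosed_iUnion_of_finite fun l => ?_
    exact isClosed_le continuous_const (((continuous_apply l).sub continuous_const).abs)
  obtain ⟨a, ha1⟩ : ∃ a : ℝ, a = κ / 3 := ⟨_, rfl⟩
  have ha0 : 0 < a := by rw [ha1]; positivity
  have hsa : 0 < √a := Real.sqrt_pos.2 ha0
  obtain ⟨r, hr⟩ : ∃ r : ℝ, r = √(8 * finrank ℚ K) * ((ε ^ 2 / 4) / (2 * √a)) := ⟨_, rfl⟩
  have hr0 : 0 < r := by rw [hr]; positivity
  have hmain : ∀ y ∈ E, (∀ l, 0 ≤ y l) → ∑ l, y l = κ →
      r ≤ √(24 * κ * finrank ℚ K) - ∑ l, √(8 * y l * finrank ℚ K) := by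
    intro y hy hy0 hys
    rw [hE] at hy
    obtain ⟨l₀, hl₀⟩ := hy
    have e1 : √(24 * κ * finrank ℚ K) = √(8 * finrank ℚ K) * (3 * √a) := by
      have : 24 * κ * finrank ℚ K = (8 * finrank ℚ K) * (3 ^ 2 * a) := by rw [ha1]; ring
      rw [this, Real.sqrt_mul (by positivity), Real.sqrt_mul (by positivity : (0 : ℝ) ≤ 3 ^ 2),
        Real.sqrt_sq (by norm_num)]
    have e2 : ∀ l, √(8 * y l * finrank ℚ K) = √(8 * finrank ℚ K) * √(y l) := by
      intro l
      have : 8 * y l * finrank ℚ K = (8 * finrank ℚ K) * y l := by ring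
      rw [this, Real.sqrt_mul (by positivity)]
    rw [e1, Finset.sum_congr rfl fun l _ => e2 l, ← Finset.mul_sum, ← mul_sub, hr]
    apply mul_le_mul_of_nonneg_left _ (Real.sqrt_nonneg _)
    have e3 : ∀ l, √(y l) = √a + (y l - a) / (2 * √a) - (√(y l) - √a) ^ 2 / (2 * √a) := by
      intro l
      have h1 := Real.sq_sqrt (hy0 l)
      have h2 := Real.sq_sqrt ha0.le
      field_simp
      nlinarith
    have e4 : ∑ l, √(y l) = 3 * √a - (∑ l, (√(y l) - √a) ^ 2) / (2 * √a) := by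
      rw [Finset.sum_congr rfl fun l _ => e3 l, Finset.sum_sub_distrib, Finset.sum_add_distrib,
        ← Finset.sum_div, ← Finset.sum_div, Finset.sum_sub_distrib, hys]
      simp only [Finset.sum_const, Finset.card_univ, Fintype.card_fin, nsmul_eq_mul]
      push_cast
      have : κ - 3 * a = 0 := by rw [ha1]; ring
      rw [this]
      ring
    rw [e4]
    have e5 : (ε ^ 2 / 4) ≤ ∑ l, (√(y l) - √a) ^ 2 := by
      refine le_trans ?_ (Finset.single_le_sum (f := fun l => (√(y l) - √a) ^ 2)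
        (fun l _ => sq_nonneg _) (mem_univ l₀))
      have h1 : y l₀ ≤ 1 := by
        have := Finset.single_le_sum (f := y) (fun l _ => hy0 l) (mem_univ l₀)
        linarith
      have h2 : √(y l₀) ≤ 1 := Real.sqrt_le_one.2 h1
      have h3 : √a ≤ 1 := Real.sqrt_le_one.2 (by linarith)
      have h4 : y l₀ - a = (√(y l₀) - √a) * (√(y l₀) + √a) := by
        have h5 := Real.mul_self_sqrt (hy0 l₀)
        have h6 := Real.mul_self_sqrt ha0.le
        ring_nf
        nlinarith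
      have h5 : ε ≤ |√(y l₀) - √a| * 2 := by
        rw [← ha1, h4, abs_mul] at hl₀
        refine hl₀.trans (mul_le_mul_of_nonneg_left ?_ (abs_nonneg _))
        rw [abs_of_nonneg (by positivity)]
        linarith
      have h6 : (ε / 2) ^ 2 ≤ |√(y l₀) - √a| ^ 2 :=
        pow_le_pow_left₀ (by positivity) (by linarith) 2
      rw [sq_abs] at h6
      show ε ^ 2 / 4 ≤ (√(y l₀) - √a) ^ 2
      linarith
    have e6 : (ε ^ 2 / 4) / (2 * √a) ≤ (∑ l, (√(y l) - √a) ^ 2) / (2 * √a) :=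
      div_le_div_of_nonneg_right e5 (by positivity)
    linarith
  have h1 := (ldp z η κ c hz hη hκ0 hκ1).1 E r hEc hmain (r / 2) (by positivity)
  have h2 := of_lim ha l1 one_pos
  have h3 : Tendsto (fun B : ℝ => 1 - Real.exp (-(r / 2) *
      √(Real.log B / Real.log (Real.log B)))) atTop (𝓝 (1 - 0)) := by
    refine tendsto_const_nhds.sub ?_
    refine Real.tendsto_exp_atBot.comp ?_
    refine Tendsto.const_mul_atTop_of_neg (by linarith) ?_
    refine Filter.tendsto_atTop.2 fun M => ?_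
    exact Real.tendsto_log_atTop.eventually (W_large M)
  rw [sub_zero] at h3
  refine tendsto_of_tendsto_of_tendsto_of_le_of_le' h3 tendsto_const_nhds ?_ ?_
  · filter_upwards [h1, h2] with B g1 g2
    have hV : (0 : ℝ) < (XQ z η κ c B).ncard := lt_of_lt_of_le (Real.exp_pos _) g2.1
    have hsub : XQ z η κ c B ⊆ ({x | x ∈ XQ z η κ c B ∧ ∀ l, |sh x l - κ / 3| < ε} : Set K) ∪
        ({x | x ∈ XQ z η κ c B ∧ sh x ∈ E} : Set K) := by
      intro x hx
      by_cases h : ∀ l, |sh x l - κ / 3| < ε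
      · exact Or.inl ⟨hx, h⟩
      · right
        push Not at h
        refine ⟨hx, ?_⟩
        rw [hE]
        exact h
    have e1 := Set.ncard_le_ncard hsub (((fin1 B).subset fun x hx => hx.1).union
      ((fin1 B).subset fun x hx => hx.1))
    have e2 := e1.trans (Set.ncard_union_le _ _)
    have e3 : ((XQ z η κ c B).ncard : ℝ) ≤
        (({x | x ∈ XQ z η κ c B ∧ ∀ l, |sh x l - κ / 3| < ε} : Set K).ncard : ℝ) +
        (({x | x ∈ XQ z η κ c B ∧ sh x ∈ E} : Set K).ncard : ℝ) := by exact_mod_cast e2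
    rw [le_div_iff₀ hV]
    have e4 : -(r - r / 2) = -(r / 2) := by ring
    rw [e4] at g1
    linarith
  · filter_upwards [h2] with B g2
    have hV : (0 : ℝ) < (XQ z η κ c B).ncard := lt_of_lt_of_le (Real.exp_pos _) g2.1
    rw [div_le_one hV]
    have hsub : ({x | x ∈ XQ z η κ c B ∧ ∀ l, |sh x l - κ / 3| < ε} : Set K) ⊆ XQ z η κ c B :=
      fun x hx => hx.1
    exact_mod_cast Set.ncard_le_ncard hsub (fin1 B)

end Pool.Agent.N906.LD
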