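import Pool.Agent.N906.LD.Up

/-!
# Project LD: upper bound with a shift (variant of `upld` in `Up.lean`)
-/

set_option autoImplicit false
set_option linter.unusedSectionVars false
set_option linter.unusedVariables false
set_option maxHeartbeats 4000000

namespace Pool.Agent.N906.LD

open NumberField IsDedekindDomain Finset Filter Topology Pool.Agent.H691R3 Pool.Agent.W223.AK
open Pool.Agent.N906.NT (Cx cst)
open Pool.Agent.N906.KG Pool.Agent.N575.QP

variable {K : Type} [Field K] [NumberField K] {q : ℕ}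

theorem cell' {α : Fin q → K × K} {S : Finset (Pr K)} {A C C₀ κ κ' X : ℝ} {R Z : Fin q → ℝ}
    (hA : 0 ≤ A) (hC : 0 ≤ C) (hκ0 : 0 ≤ κ) (hκ2 : κ ≤ 2) (hκ' : κ' ≤ 1)
    (h : CB α S A) {γ : Fin q → ℕ} (hZ : ∀ l, (γ l : ℝ) ≤ Z l)
    (hrank : ∀ l (T : ℝ) (F : Finset (Idl K)), T ≤ Z l →
      (∀ a ∈ F, (∀ v, a v ≠ 1) ∧ T ≤ len a - rl a) →
      ∑ a ∈ F, Real.exp (-len a) ≤ Real.exp (-T + R l))
    {c : ℕ × (Pl K → Fin q) × (Pl K → ℕ)} (hc : (c.1 : ℝ) ≤ X + 1)
    {G : Finset K} (hG : ∀ x ∈ G, Of α x ∧ Ic α S C c x ∧ 0 < hr (aff x) ∧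
      q * (q * C) ≤ hr (aff x) ∧
      ∃ P, IsP S α x P ∧ (∀ l, γ l = ⌊hr (aff x) - rl (P l)⌋₊) ∧ tr P = ∑ l, rl (P l) ∧
        tr P ≤ ((q : ℝ) - κ) * hr (aff x) + C₀ ∧ ((q : ℝ) - κ') * hr (aff x) ≤ tr P) :
    (G.card : ℝ) ≤ A * (1 + Real.exp (2 * C)) * Real.exp (q * (1 + C + q * C)) *
      Real.exp (2 + C₀ + q) * Real.exp ((2 - κ) * X + ∑ l, R l) := by
  rcases G.eq_empty_or_nonempty with rfl | ⟨x₀, hx₀⟩
  · rw [card_empty]
    push_cast
    positivity
  obtain ⟨-, hI, hp, hbig, P₀, hP₀, hγ, htr, hup, hlo⟩ := hG x₀ hx₀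
  have hqC : 0 ≤ (q : ℝ) * C := by positivity
  obtain ⟨m, hm⟩ : ∃ m : ℝ, m = (c.1 : ℝ) := ⟨_, rfl⟩
  have hm1 : hr (aff x₀) ≤ m := by rw [hm]; exact hI.up
  have hm2 : m - 1 ≤ hr (aff x₀) := by rw [hm]; exact hI.dn
  have hm0 : 0 < m := lt_of_lt_of_le hp hm1
  have key : ∀ x ∈ G, ∀ P, IsP S α x P → (∀ l, γ l = ⌊hr (aff x) - rl (P l)⌋₊) → ∀ l,
      hr (aff x) - rl (P l) - 1 ≤ γ l ∧ (γ l : ℝ) ≤ hr (aff x) - rl (P l) + q * C := by
    intro x hx P hP hg l
    have e1 := len_up (hG x hx).2.1 hP l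
    have e2 := rl_le_len (P l)
    rw [hg l]
    exact floor_bd hqC (by linarith)
  have hs1 : κ * hr (aff x₀) - C₀ - q ≤ ∑ l, (γ l : ℝ) := by
    have e1 : ∑ l, (hr (aff x₀) - rl (P₀ l) - 1) ≤ ∑ l, (γ l : ℝ) :=
      Finset.sum_le_sum fun l _ => (key x₀ hx₀ P₀ hP₀ hγ l).1
    simp only [Finset.sum_sub_distrib, Finset.sum_const, Finset.card_univ, Fintype.card_fin,
      nsmul_eq_mul, mul_one] at e1
    rw [← htr] at e1
    linarith
  have hs2 : ∑ l, (γ l : ℝ) ≤ 2 * m := by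
    have e1 : ∑ l, (γ l : ℝ) ≤ ∑ l, (hr (aff x₀) - rl (P₀ l) + q * C) :=
      Finset.sum_le_sum fun l _ => (key x₀ hx₀ P₀ hP₀ hγ l).2
    simp only [Finset.sum_add_distrib, Finset.sum_sub_distrib, Finset.sum_const, Finset.card_univ,
      Fintype.card_fin, nsmul_eq_mul] at e1
    rw [← htr] at e1
    have e2 : κ' * hr (aff x₀) ≤ 1 * hr (aff x₀) := mul_le_mul_of_nonneg_right hκ' hp.le
    linarith
  have hsum : (∑ l, (γ l : ℝ) / m) * m = ∑ l, (γ l : ℝ) := by
    rw [← Finset.sum_div, div_mul_cancel₀ _ hm0.ne']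
  have b := cls (X := m - 1) (κ := fun l => (γ l : ℝ) / m) (κ' := κ') (C₀ := q * C) (R := R)
    (Z := Z) (G := G) (c := c) (α := α) (S := S) hA hC hqC (fun l => by positivity)
    (fun l => by
      rw [div_le_one hm0]
      refine le_trans ?_ hm1
      rw [hγ l]
      have e1 := rl0 (P₀ l)
      rcases le_total 0 (hr (aff x₀) - rl (P₀ l)) with h' | h'
      · have := Nat.floor_le h'
        linarith
      · rw [Nat.floor_of_nonpos h']
        push_cast
        exact hp.le)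
    (by
      have : (∑ l, (γ l : ℝ) / m) * m ≤ 2 * m := by rw [hsum]; exact hs2
      exact le_of_mul_le_mul_right this hm0)
    hκ' h (fun l => by
      have e1 : (γ l : ℝ) / m * (m - 1 + 1) = γ l := by
        rw [sub_add_cancel, div_mul_cancel₀ _ hm0.ne']
      rw [e1]
      exact hZ l) hrank (by rw [← hm]; linarith) (by
      intro x hx
      obtain ⟨g1, g2, g3, -, P, g4, g5, g6, g7, g8⟩ := hG x hx
      refine ⟨g1, g2, P, g4, fun l => ?_, g8⟩
      have e1 := (key x hx P g4 g5 l).2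
      have e2 : hr (aff x) ≤ m := by rw [hm]; exact g2.up
      have e3 : (γ l : ℝ) / m * hr (aff x) ≤ γ l := by
        rw [div_mul_eq_mul_div, div_le_iff₀ hm0]
        exact mul_le_mul_of_nonneg_left e2 (Nat.cast_nonneg _)
      show rl (P l) ≤ (1 - (γ l : ℝ) / m) * hr (aff x) + q * C
      linarith)
  refine b.trans ?_
  obtain ⟨B, hB⟩ : ∃ B : ℝ, B = A * (1 + Real.exp (2 * C)) * Real.exp (q * (1 + C + q * C)) :=
    ⟨_, rfl⟩
  have hB0 : 0 ≤ B := by rw [hB]; positivity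
  rw [← hB, mul_assoc B, ← Real.exp_add]
  apply mul_le_mul_of_nonneg_left _ hB0
  apply Real.exp_le_exp.2
  have e1 : (2 - ∑ l, (γ l : ℝ) / m) * (m - 1 + 1) = 2 * m - ∑ l, (γ l : ℝ) := by
    rw [sub_add_cancel, sub_mul, hsum]
  rw [e1]
  have e2 : κ * (m - 1) ≤ κ * hr (aff x₀) := mul_le_mul_of_nonneg_left hm2 hκ0
  have e3 : (2 - κ) * m ≤ (2 - κ) * (X + 1) := by
    apply mul_le_mul_of_nonneg_left _ (by linarith)
    rw [hm]
    exact hc
  linarith

theorem uplu (K : Type) [Field K] [NumberField K] (q : ℕ) (κ₁ : ℝ) (hq : 1 ≤ q) (hκ₁ : κ₁ ≤ 1)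
    (h1 : S_BASQ K) (h2 : S_CELLQ K) (h3 : S_RANK K) (h4 : S_BIGQ K q κ₁)
    (α : Fin q → K × K) (S : Finset (Pr K)) (κ s ε C₀ : ℝ) (E : Set (Fin q → ℝ)) (hE : IsClosed E)
    (hα : Al α) (hS : Gd S α) (hκ0 : 0 < κ) (hκl : κ < κ₁) (hε : 0 < ε) (hC₀ : 0 ≤ C₀)
    (hs : ∀ y ∈ E, (∀ l, 0 ≤ y l) → ∑ l, y l = κ → ∑ l, √(8 * y l) ≤ s) :
    ∃ X₀ δ' : ℝ, 1 < X₀ ∧ 0 < δ' ∧ δ' < 1 ∧ ∀ (X U : ℝ) (F : Finset K), X₀ ≤ X → |U| ≤ δ' * X →
      (∀ x ∈ F, Of α x ∧ (1 - δ') * X < hr (aff x) ∧ hr (aff x) ≤ X ∧ ∃ P, IsP S α x P ∧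
        tr P ≤ ((q : ℝ) - κ) * hr (aff x) + (C₀ - U) ∧
        ∃ y ∈ E, ∀ l, |rl (P l) - (1 - y l) * hr (aff x)| ≤ C₀) →
      (F.card : ℝ) ≤ Real.exp ((2 - κ) * X - U + (s + ε) * √(X / Real.log X)) := by
  classical
  have hq0 : (0 : ℝ) < q := by exact_mod_cast hq
  obtain ⟨δ₀, hδ₀, hδ₀1, hthick⟩ := thick (ε := ε / 8) hE hs (by positivity)
  obtain ⟨δ, hδ⟩ : ∃ δ : ℝ, δ = min (δ₀ / 8) ((κ₁ - κ) / 2) := ⟨_, rfl⟩
  have hδ0 : 0 < δ := by rw [hδ]; exact lt_min (by positivity) (by linarith)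
  have hδ1 : δ ≤ δ₀ / 8 := by rw [hδ]; exact min_le_left _ _
  have hδ2 : δ ≤ (κ₁ - κ) / 2 := by rw [hδ]; exact min_le_right _ _
  have hκ'1 : κ + δ ≤ 1 := by linarith
  obtain ⟨C, hC, hcodes⟩ := codes h1 hq hα hS
  obtain ⟨A, hA, hcell⟩ := h2 q α S hα hS
  obtain ⟨η, hη⟩ : ∃ η : ℝ, η = min 1 (ε / (120 * q)) := ⟨_, rfl⟩
  have hη0 : 0 < η := by rw [hη]; exact lt_min one_pos (by positivity)
  have hη1 : η ≤ 1 := by rw [hη]; exact min_le_left _ _
  have hη2 : 3 * η * (5 * q) ≤ ε / 8 := by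
    have e1 : η ≤ ε / (120 * q) := by rw [hη]; exact min_le_right _ _
    rw [le_div_iff₀ (by positivity)] at e1
    linarith
  obtain ⟨Z₀, hZ₀, hrank⟩ := rank1 h3 hη0
  obtain ⟨D₁, hD₁, hbig₁⟩ := h4 α S (κ + δ) (δ / 2) 0 hα hS (by linarith) (by linarith)
    (by positivity)
  obtain ⟨Cb, hCb, hbas⟩ := (h1 q α hq hα).2 S hS
  have hqC : 0 ≤ (q : ℝ) * C := by positivity
  -- constants
  obtain ⟨C₁, hC₁⟩ : ∃ C₁ : ℝ, C₁ = C₀ + 1 + q * C := ⟨_, rfl⟩
  have hC₁0 : 0 < C₁ := by rw [hC₁]; positivity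
  obtain ⟨B, hB⟩ : ∃ B : ℝ, B = A * (1 + Real.exp (2 * C)) * Real.exp (q * (1 + C + q * C)) *
    Real.exp (2 + C₀ + q) := ⟨_, rfl⟩
  have hB0 : 0 < B := by rw [hB]; positivity
  obtain ⟨n, hn⟩ : ∃ n : ℕ, n = 1 + (Spl S).card := ⟨_, rfl⟩
  obtain ⟨E₁, hE₁⟩ : ∃ E₁ : ℝ, E₁ = C * B + C + 1 := ⟨_, rfl⟩
  have hCB : 0 < C * B := by positivity
  have hE0 : 0 < E₁ := by rw [hE₁]; positivity
  have ev1 := poly (A := E₁) (η := ε / 12) (by positivity) hE0 (n + q)
  have ev2 := sq_bd (δ := δ₀ / 2) (η := η) (by positivity) hη0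
  have ev3 := small (t := s + ε) (δ := δ / 8) (by positivity)
  have ev4 := small (t := s + ε) (δ := δ / 8) (by positivity)
  have ev5 : ∀ᶠ X : ℝ in atTop, 4 * D₁ ≤ Real.exp (δ / 8 * X) := by
    have := (Real.tendsto_exp_atTop.comp (tendsto_id.const_mul_atTop (show 0 < δ / 8 by positivity)))
    exact this.eventually_ge_atTop _
  have ev6 := poly (A := 4) (η := ε / 12) (by positivity) (by norm_num) 1
  obtain ⟨X₀, hX₀⟩ := eventually_atTop.1 (((ev1.and ev2).and (ev3.and ev5)).and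
    ((ev6.and (eventually_ge_atTop (Z₀ / (δ₀ / 2)))).and
      ((eventually_ge_atTop (8 * (q * C₁ + C₀) / δ₀)).and
        ((eventually_ge_atTop ((q * (q * C) + C₁) / (1 - δ))).and (eventually_ge_atTop (1 : ℝ))))))
  refine ⟨max X₀ 2, δ / 8, lt_max_of_lt_right (by norm_num), by positivity, by linarith,
    fun X U F hX hU hF' => ?_⟩
  have hF : ∀ x ∈ F, Of α x ∧ hr (aff x) ≤ X ∧ ∃ P, IsP S α x P ∧
        tr P ≤ ((q : ℝ) - κ) * hr (aff x) + (C₀ - U) ∧
        (0 < hr (aff x) → ∃ y ∈ E, ∀ l, |rl (P l) - (1 - y l) * hr (aff x)| ≤ C₀) := by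
    intro x hx
    obtain ⟨g1, -, g2, P, g3, g4, g5⟩ := hF' x hx
    exact ⟨g1, g2, P, g3, g4, fun _ => g5⟩
  obtain ⟨hU1, hU2⟩ := abs_le.1 hU
  obtain ⟨⟨⟨hpoly, hsq⟩, hsm, hexp⟩, ⟨hpoly2, hXZ⟩, hXδ, hXq, hX1⟩ := hX₀ X ((le_max_left _ _).trans hX)
  have hX0 : 0 < X := by linarith
  obtain ⟨W, hW⟩ : ∃ W : ℝ, W = √(X / Real.log X) := ⟨_, rfl⟩
  have hW0 : 0 ≤ W := by rw [hW]; exact Real.sqrt_nonneg _
  have hW8 : √(8 * X / Real.log X) ≤ 3 * W := by
    rw [mul_div_assoc, Real.sqrt_mul (by norm_num), hW]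
    apply mul_le_mul_of_nonneg_right _ (Real.sqrt_nonneg _)
    rw [Real.sqrt_le_left (by norm_num)]
    norm_num
  rw [← hW]
  rw [← hW] at hsm
  simp only [← hW] at hsq
  have hP' : ∀ x : K, ∃ P : Fin q → Idl K, x ∈ F → IsP S α x P ∧
      tr P ≤ ((q : ℝ) - κ) * hr (aff x) + (C₀ - U) ∧
      (0 < hr (aff x) → ∃ y ∈ E, ∀ l, |rl (P l) - (1 - y l) * hr (aff x)| ≤ C₀) := by
    intro x
    by_cases hx : x ∈ F
    · obtain ⟨P, hP⟩ := (hF x hx).2.2
      exact ⟨P, fun _ => hP⟩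
    · exact ⟨0, fun h => absurd h hx⟩
  choose P hP using hP'
  -- the three classes
  obtain ⟨F₁, hF₁⟩ : ∃ F₁ : Finset K, F₁ = {x ∈ F | tr (P x) ≤ ((q : ℝ) - (κ + δ)) * hr (aff x)} :=
    ⟨_, rfl⟩
  obtain ⟨Fc, hFc⟩ : ∃ Fc : Finset K,
      Fc = {x ∈ F | ¬ tr (P x) ≤ ((q : ℝ) - (κ + δ)) * hr (aff x) ∧ ¬ hr (aff x) ≤ (1 - δ) * X} :=
    ⟨_, rfl⟩
  have hcov : F ⊆ F₁ ∪ Fc := by
    intro x hx
    have g1 : ¬ hr (aff x) ≤ (1 - δ) * X := by
      have g2 := (hF' x hx).2.1
      have g3 : 0 ≤ δ * X := by positivity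
      push Not
      linarith
    rw [mem_union, hF₁, hFc, mem_filter, mem_filter]
    tauto
  have hb1 : (F₁.card : ℝ) ≤ D₁ * Real.exp ((2 - κ - δ / 2) * X) := by
    refine (hbig₁ X F₁ hX0.le ?_).trans (le_of_eq ?_)
    · intro x hx
      rw [hF₁, mem_filter] at hx
      refine ⟨(hF x hx.1).1, (hF x hx.1).2.1, P x, (hP x hx.1).1, ?_⟩
      rw [add_zero]
      exact hx.2
    · congr 2
      ring
  -- the third class
  obtain ⟨T, hT1, hT2, hT3⟩ := hcodes X hX0.le
  rw [← hn] at hT1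
  have hf : ∀ x : K, ∃ c : Option (ℕ × (Pl K → Fin q) × (Pl K → ℕ)), Of α x →
      hr (aff x) ≤ X → ∃ c₁ ∈ T, c = some c₁ ∧ Ic α S C c₁ x := by
    intro x
    by_cases hx : Of α x ∧ hr (aff x) ≤ X
    · obtain ⟨c, hc, hc'⟩ := hT3 x hx.1 hx.2
      exact ⟨some c, fun _ _ => ⟨c, hc, rfl, hc'⟩⟩
    · exact ⟨none, fun h h' => absurd ⟨h, h'⟩ hx⟩
  choose f hf using hf
  obtain ⟨g, hg⟩ : ∃ g : K → Fin q → ℕ, g = fun x l => ⌊hr (aff x) - rl (P x l)⌋₊ := ⟨_, rfl⟩
  have hcard : (Fc.card : ℝ) ≤ (T.card : ℝ) * (X + 1) ^ q *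
      (B * Real.exp ((2 - κ) * X - U + (s + ε / 4) * W)) := by
    have hUc : (((T.image some) ×ˢ Fintype.piFinset (fun _ : Fin q => range (⌊X⌋₊ + 1))).card : ℝ) ≤
        (T.card : ℝ) * (X + 1) ^ q := by
      rw [card_product, Fintype.card_piFinset, Finset.prod_const, card_range, card_univ,
        Fintype.card_fin]
      push_cast
      have e1 : ((T.image some).card : ℝ) ≤ T.card := by exact_mod_cast card_image_le
      have e2 : (⌊X⌋₊ : ℝ) + 1 ≤ X + 1 := by
        have := Nat.floor_le hX0.le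
        linarith
      exact mul_le_mul e1 (pow_le_pow_left₀ (by positivity) e2 q) (by positivity) (Nat.cast_nonneg _)
    rw [card_eq_sum_card_fiberwise (f := fun x => (f x, g x))
      (t := (T.image some) ×ˢ Fintype.piFinset (fun _ : Fin q => range (⌊X⌋₊ + 1))) (by
      intro x hx
      have hx' : x ∈ Fc := hx
      rw [hFc, mem_filter] at hx'
      obtain ⟨g1, g2, -⟩ := hF x hx'.1
      obtain ⟨c, hc, hc1, -⟩ := hf x g1 g2
      rw [Finset.mem_coe, mem_product, Fintype.mem_piFinset]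
      refine ⟨?_, fun l => ?_⟩
      · show f x ∈ T.image some
        rw [hc1]
        exact mem_image_of_mem _ hc
      · show g x l ∈ range (⌊X⌋₊ + 1)
        rw [mem_range, hg]
        apply Nat.lt_succ_of_le
        apply Nat.floor_le_floor
        have := rl0 (P x l)
        linarith)]
    push_cast
    have hfib : ∀ u ∈ (T.image some) ×ˢ Fintype.piFinset (fun _ : Fin q => range (⌊X⌋₊ + 1)),
        ((#{x ∈ Fc | (f x, g x) = u} : ℕ) : ℝ) ≤
        B * Real.exp ((2 - κ) * X - U + (s + ε / 4) * W) := by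
      intro u hu
      obtain ⟨G, hG⟩ : ∃ G : Finset K, G = {x ∈ Fc | (f x, g x) = u} := ⟨_, rfl⟩
      rw [← hG]
      rcases G.eq_empty_or_nonempty with hGe | ⟨x₀, hx₀⟩
      · rw [hGe, card_empty]
        push_cast
        positivity
      obtain ⟨u₁, γ⟩ := u
      rw [mem_product] at hu
      obtain ⟨c, hc, hcu⟩ := mem_image.1 hu.1
      simp only at hcu
      subst hcu
      have hGx : ∀ x ∈ G, x ∈ F ∧ ((q : ℝ) - (κ + δ)) * hr (aff x) ≤ tr (P x) ∧
          (1 - δ) * X < hr (aff x) ∧ Ic α S C c x ∧ g x = γ := by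
        intro x hx
        rw [hG, mem_filter, hFc, mem_filter] at hx
        obtain ⟨⟨hxF, hx1, hx2⟩, hx3⟩ := hx
        rw [Prod.mk.injEq] at hx3
        obtain ⟨g1, g2, -⟩ := hF x hxF
        obtain ⟨c₁, -, hc1, hc2⟩ := hf x g1 g2
        rw [hx3.1] at hc1
        have h5 : c = c₁ := Option.some.inj hc1
        rw [← h5] at hc2
        push Not at hx1 hx2
        exact ⟨hxF, hx1.le, hx2, hc2, hx3.2⟩
      have htrx : ∀ x ∈ G, tr (P x) = ∑ l, rl (P x l) := by
        intro x hx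
        have g0 := (hGx x hx).1
        exact Pool.Agent.N340.QP.tr_eq ((hbas x (hF x g0).1).2.1 (P x) (hP x g0).1).1
      have hhr : ∀ x ∈ G, q * (q * C) + C₁ ≤ hr (aff x) := by
        intro x hx
        have e1 := (hGx x hx).2.2.1
        rw [div_le_iff₀ (by linarith)] at hXq
        linarith
      have hqq : 0 ≤ (q : ℝ) * (q * C) := by positivity
      -- the vector w
      obtain ⟨w, hw⟩ : ∃ w : Fin q → ℝ, w = fun l => (γ l : ℝ) / X := ⟨_, rfl⟩
      have hw0 : ∀ l, 0 ≤ w l := fun l => by rw [hw]; positivity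
      have hwX : ∀ l, w l * X = γ l := fun l => by rw [hw]; exact div_mul_cancel₀ _ hX0.ne'
      obtain ⟨x1, x2, x3, x4, x5⟩ := hGx x₀ hx₀
      have x6 := htrx x₀ hx₀
      have x7 := hhr x₀ hx₀
      obtain ⟨x8, x9, -⟩ := hF x₀ x1
      obtain ⟨x10, x11, x12⟩ := hP x₀ x1
      have hrp : 0 < hr (aff x₀) := by linarith
      obtain ⟨y, hyE, hy⟩ := x12 hrp
      have hfl : ∀ l, hr (aff x₀) - rl (P x₀ l) - 1 ≤ γ l ∧
          (γ l : ℝ) ≤ hr (aff x₀) - rl (P x₀ l) + q * C := by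
        intro l
        have e1 := len_up x4 x10 l
        have e2 := rl_le_len (P x₀ l)
        have e3 : γ l = ⌊hr (aff x₀) - rl (P x₀ l)⌋₊ := by rw [← x5, hg]
        rw [e3]
        exact floor_bd hqC (by linarith)
      have hwy : ∀ l, |w l - y l| ≤ δ₀ := by
        intro l
        obtain ⟨e1, e2⟩ := hfl l
        obtain ⟨e3, e4⟩ := abs_le.1 (hy l)
        have e5 := rl0 (P x₀ l)
        have e6 := rl_le_len (P x₀ l)
        have e7 := len_up x4 x10 l
        -- |y| ≤ 2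
        have e8 : y l ≤ 2 := by
          by_contra hcon
          push Not at hcon
          have : 2 * hr (aff x₀) < y l * hr (aff x₀) := mul_lt_mul_of_pos_right hcon hrp
          rw [hC₁] at x7
          linarith
        have e9 : -2 ≤ y l := by
          by_contra hcon
          push Not at hcon
          have : y l * hr (aff x₀) < -2 * hr (aff x₀) := mul_lt_mul_of_pos_right hcon hrp
          rw [hC₁] at x7
          linarith
        have e10 : |y l| ≤ 2 := abs_le.2 ⟨e9, e8⟩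
        have e11 : |w l * X - y l * X| ≤ C₁ + 2 * (δ * X) := by
          rw [hwX]
          have e12 : y l * X = y l * hr (aff x₀) + y l * (X - hr (aff x₀)) := by ring
          have e13 : |y l * (X - hr (aff x₀))| ≤ 2 * (δ * X) := by
            rw [abs_mul]
            apply mul_le_mul e10 _ (abs_nonneg _) (by norm_num)
            rw [abs_of_nonneg (by linarith)]
            linarith
          obtain ⟨e14, e15⟩ := abs_le.1 e13
          rw [e12, hC₁]
          apply abs_le.2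
          constructor <;> linarith
        have e12 : |w l * X - y l * X| = |w l - y l| * X := by
          rw [← sub_mul, abs_mul, abs_of_pos hX0]
        rw [e12] at e11
        have e13 : C₁ ≤ δ₀ / 2 * X := by
          rw [div_le_iff₀ hδ₀] at hXδ
          have : C₁ ≤ q * C₁ := le_mul_of_one_le_left hC₁0.le (by exact_mod_cast hq)
          linarith
        have e14 : δ * X ≤ δ₀ / 8 * X := mul_le_mul_of_nonneg_right hδ1 hX0.le
        have e15 : |w l - y l| * X ≤ δ₀ * X := by linarith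
        exact le_of_mul_le_mul_right e15 hX0
      have hws : |∑ l, w l - κ| ≤ δ₀ := by
        have e1 : ∑ l, (hr (aff x₀) - rl (P x₀ l) - 1) ≤ ∑ l, (γ l : ℝ) :=
          Finset.sum_le_sum fun l _ => (hfl l).1
        have e2 : ∑ l, (γ l : ℝ) ≤ ∑ l, (hr (aff x₀) - rl (P x₀ l) + q * C) :=
          Finset.sum_le_sum fun l _ => (hfl l).2
        simp only [Finset.sum_add_distrib, Finset.sum_sub_distrib, Finset.sum_const,
          Finset.card_univ, Fintype.card_fin, nsmul_eq_mul, mul_one] at e1 e2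
        rw [← x6] at e1 e2
        have e3 : (∑ l, w l) * X = ∑ l, (γ l : ℝ) := by
          rw [Finset.sum_mul]
          exact Finset.sum_congr rfl fun l _ => hwX l
        have e4 : κ * ((1 - δ) * X) ≤ κ * hr (aff x₀) := mul_le_mul_of_nonneg_left x3.le hκ0.le
        have e5 : (κ + δ) * hr (aff x₀) ≤ (κ + δ) * X := mul_le_mul_of_nonneg_left x9 (by linarith)
        have e6 : q * C₁ + C₀ ≤ δ₀ / 8 * X := by
          rw [div_le_iff₀ hδ₀] at hXδ
          linarith
        have e7 : q * C₁ = q * C₀ + q + q * (q * C) := by rw [hC₁]; ring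
        have e8 : 0 ≤ (q : ℝ) * C₀ := by positivity
        have e9 : δ * X ≤ δ₀ / 8 * X := mul_le_mul_of_nonneg_right hδ1 hX0.le
        have e10 : κ * (δ * X) ≤ 1 * (δ * X) :=
          mul_le_mul_of_nonneg_right (by linarith) (by positivity)
        have e11 : |(∑ l, w l - κ) * X| ≤ δ₀ * X := by
          rw [sub_mul, e3]
          apply abs_le.2
          constructor <;> nlinarith
        rw [abs_mul, abs_of_pos hX0] at e11
        exact le_of_mul_le_mul_right e11 hX0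
      have hQ := hthick w hw0 hws ⟨y, hyE, hwy⟩
      obtain ⟨Q, hQe⟩ : ∃ Q : ℝ, Q = ∑ l, √(8 * (w l + δ₀)) := ⟨_, rfl⟩
      rw [← hQe] at hQ
      have hQ5 : Q ≤ 5 * q := by
        rw [hQe]
        have e1 : ∀ l ∈ (univ : Finset (Fin q)), √(8 * (w l + δ₀)) ≤ 5 := by
          intro l _
          have e2 := Finset.single_le_sum (f := w) (fun l _ => hw0 l) (mem_univ l)
          have e3 := (abs_le.1 hws).2
          rw [Real.sqrt_le_left (by norm_num)]
          linarith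
        refine (Finset.sum_le_sum e1).trans ?_
        rw [Finset.sum_const, Finset.card_univ, Fintype.card_fin, nsmul_eq_mul]
        linarith
      obtain ⟨R, hR⟩ : ∃ R : Fin q → ℝ, R = fun l =>
        (1 + η) * √(8 * ((w l + δ₀ / 2) * X / Real.log ((w l + δ₀ / 2) * X))) := ⟨_, rfl⟩
      have hRs : ∑ l, R l ≤ (s + ε / 4) * W := by
        have e1 : ∑ l, R l ≤ (1 + η) * ((1 + η) * (Q * W)) := by
          rw [hQe, Finset.sum_mul, Finset.mul_sum, Finset.mul_sum]
          refine Finset.sum_le_sum fun l _ => ?_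
          rw [hR]
          apply mul_le_mul_of_nonneg_left _ (by positivity)
          refine (hsq (w l + δ₀ / 2) (by have := hw0 l; linarith)).trans ?_
          apply mul_le_mul_of_nonneg_left _ (by positivity)
          apply mul_le_mul_of_nonneg_right _ hW0
          apply Real.sqrt_le_sqrt
          linarith
        have e2 : (1 + η) * ((1 + η) * (Q * W)) = ((1 + η) * (1 + η) * Q) * W := by ring
        rw [e2] at e1
        refine e1.trans (mul_le_mul_of_nonneg_right ?_ hW0)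
        have e3 : 0 ≤ Q := by rw [hQe]; exact Finset.sum_nonneg fun l _ => Real.sqrt_nonneg _
        have e4 : (1 + η) * (1 + η) * Q ≤ (1 + 3 * η) * Q := by
          apply mul_le_mul_of_nonneg_right _ e3
          nlinarith
        have e5 : 3 * η * Q ≤ 3 * η * (5 * q) := mul_le_mul_of_nonneg_left hQ5 (by positivity)
        linarith
      have b := cell' (α := α) (S := S) (A := A) (C := C) (C₀ := C₀ - U) (κ := κ) (κ' := κ + δ)
        (X := X)
        (R := R) (Z := fun l => (w l + δ₀ / 2) * X) (c := c) (γ := γ) (G := G) hA.le hC.le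
        hκ0.le (by linarith) hκ'1 hcell (fun l => by
          show (γ l : ℝ) ≤ (w l + δ₀ / 2) * X
          rw [add_mul, hwX]
          have : 0 ≤ δ₀ / 2 * X := by positivity
          linarith) (by
          intro l T' F' hT' hF'
          rw [hR]
          refine hrank ((w l + δ₀ / 2) * X) T' F' ?_ hT' hF'
          rw [div_le_iff₀ (by positivity)] at hXZ
          have e1 := hw0 l
          have e2 : 0 ≤ w l * X := by positivity
          linarith) (hT2 c hc) (by
          intro x hx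
          obtain ⟨y1, y2, y3, y4, y5⟩ := hGx x hx
          have y6 := hhr x hx
          refine ⟨(hF x y1).1, y4, by linarith, by linarith, P x, (hP x y1).1, fun l => ?_,
            htrx x hx, (hP x y1).2.1, y2⟩
          rw [← y5, hg])
      refine b.trans ?_
      have b2 : Real.exp (2 + (C₀ - U) + q) = Real.exp (2 + C₀ + q) * Real.exp (-U) := by
        rw [← Real.exp_add]
        congr 1
        ring
      rw [hB, b2, ← mul_assoc _ _ (Real.exp (-U)), mul_assoc _ (Real.exp (-U)), ← Real.exp_add]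
      apply mul_le_mul_of_nonneg_left _ (by positivity)
      apply Real.exp_le_exp.2
      linarith
    refine (Finset.sum_le_sum hfib).trans ?_
    rw [Finset.sum_const, nsmul_eq_mul]
    exact mul_le_mul_of_nonneg_right hUc (by positivity)
  -- the sum
  have hT4 : (T.card : ℝ) * (X + 1) ^ q * B ≤ E₁ * (X + E₁) ^ (n + q) := by
    have hE1 : 1 ≤ E₁ := by rw [hE₁]; linarith
    calc (T.card : ℝ) * (X + 1) ^ q * B ≤ (C * (X + C) ^ n) * (X + 1) ^ q * B := by
          apply mul_le_mul_of_nonneg_right _ hB0.le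
          exact mul_le_mul_of_nonneg_right hT1 (by positivity)
      _ ≤ (C * (X + E₁) ^ n) * (X + E₁) ^ q * B := by
          apply mul_le_mul_of_nonneg_right _ hB0.le
          apply mul_le_mul
          · apply mul_le_mul_of_nonneg_left _ hC.le
            apply pow_le_pow_left₀ (by linarith)
            rw [hE₁]; linarith
          · apply pow_le_pow_left₀ (by linarith)
            linarith
          · positivity
          · positivity
      _ = C * B * (X + E₁) ^ (n + q) := by rw [pow_add]; ring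
      _ ≤ _ := by
          apply mul_le_mul_of_nonneg_right _ (by positivity)
          rw [hE₁]; linarith
  have hb3 : (Fc.card : ℝ) ≤ Real.exp ((2 - κ) * X - U + (s + ε / 2) * W) := by
    calc (Fc.card : ℝ) ≤ (T.card : ℝ) * (X + 1) ^ q *
          (B * Real.exp ((2 - κ) * X - U + (s + ε / 4) * W)) := hcard
      _ = ((T.card : ℝ) * (X + 1) ^ q * B) * Real.exp ((2 - κ) * X - U + (s + ε / 4) * W) := by
          ring
      _ ≤ Real.exp (ε / 12 * (3 * W)) * Real.exp ((2 - κ) * X - U + (s + ε / 4) * W) := by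
          apply mul_le_mul_of_nonneg_right _ (Real.exp_pos _).le
          refine (hT4.trans hpoly).trans (Real.exp_le_exp.2 ?_)
          exact mul_le_mul_of_nonneg_left hW8 (by positivity)
      _ = _ := by rw [← Real.exp_add]; congr 1; ring
  have hb4 : 2 * Real.exp ((2 - κ) * X - U + (s + ε / 2) * W) ≤
      Real.exp ((2 - κ) * X - U + (s + ε) * W) := by
    have e1 : (2 : ℝ) ≤ Real.exp (ε / 12 * (3 * W)) := by
      refine le_trans ?_ (hpoly2.trans (Real.exp_le_exp.2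
        (mul_le_mul_of_nonneg_left hW8 (by positivity))))
      rw [pow_one]
      linarith
    calc 2 * Real.exp ((2 - κ) * X - U + (s + ε / 2) * W) ≤
        Real.exp (ε / 12 * (3 * W)) * Real.exp ((2 - κ) * X - U + (s + ε / 2) * W) :=
          mul_le_mul_of_nonneg_right e1 (Real.exp_pos _).le
      _ = Real.exp ((2 - κ) * X - U + (s + ε / 2 + ε / 4) * W) := by
          rw [← Real.exp_add]; congr 1; ring
      _ ≤ _ := by
          apply Real.exp_le_exp.2
          have : 0 ≤ ε / 4 * W := by positivity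
          linarith
  have hb5 : 2 * (D₁ * Real.exp ((2 - κ - δ / 2) * X)) ≤
      Real.exp ((2 - κ) * X - U + (s + ε) * W) := by
    have e1 : -(δ / 8 * X) ≤ (s + ε) * W := by
      have e2 : |(s + ε) * W| = |s + ε| * W := by rw [abs_mul, abs_of_nonneg hW0]
      have e3 := neg_abs_le ((s + ε) * W)
      rw [e2] at e3
      linarith
    calc 2 * (D₁ * Real.exp ((2 - κ - δ / 2) * X))
        ≤ Real.exp (δ / 8 * X) * Real.exp ((2 - κ - δ / 2) * X) := by
          rw [← mul_assoc]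
          apply mul_le_mul_of_nonneg_right _ (Real.exp_pos _).le
          linarith
      _ ≤ _ := by
          rw [← Real.exp_add]
          apply Real.exp_le_exp.2
          have : 0 ≤ δ * X := by positivity
          linarith
  have hc1 : (F.card : ℝ) ≤ F₁.card + Fc.card := by
    have e1 := card_le_card hcov
    have e2 := card_union_le F₁ Fc
    have e4 : F.card ≤ F₁.card + Fc.card := by omega
    exact_mod_cast e4
  linarith

end Pool.Agent.N906.LD
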