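import Pool.Agent.N906.LD.Fin
import Pool.Agent.N906.LD.UpU
import Pool.Agent.N906.LD.LoS

/-!
# Project LD: shifted thresholds, final theorem
-/

set_option autoImplicit false
set_option linter.unusedSectionVars false
set_option linter.unusedVariables false
set_option maxHeartbeats 4000000

namespace Pool.Agent.N906.LD

open NumberField IsDedekindDomain Finset Filter Topology Module Pool.Agent.H691R3 Pool.Agent.W223.AK
open Pool.Agent.N906.KG Pool.Agent.N170.KG Pool.Agent.N906.QP.Aff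

/-- the scale of the second order term -/
noncomputable def ph (t : ℝ) : ℝ := √(t / Real.log t)

theorem ph_nonneg (t : ℝ) : 0 ≤ ph t := Real.sqrt_nonneg _

theorem ph_near {δ : ℝ} (hδ0 : 0 < δ) (hδ1 : δ < 1) : ∀ᶠ L : ℝ in atTop, ∀ t, (1 - δ) * L ≤ t →
    t ≤ L → (1 - δ) * ph L ≤ ph t ∧ ph t ≤ ph L := by
  filter_upwards [eventually_ge_atTop (3 / (1 - δ)), eventually_ge_atTop (3 : ℝ)] with L h1 h2 t h3 h4
  have h1δ : 0 < 1 - δ := by linarith
  rw [div_le_iff₀ h1δ] at h1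
  have ht3 : 3 ≤ t := by linarith
  have he : Real.exp 1 ≤ 3 := by have := Real.exp_one_lt_d9; linarith
  have ht0 : 0 < t := by linarith
  have hL0 : 0 < L := by linarith
  have hlt : 0 < Real.log t := Real.log_pos (by linarith)
  have hlL : 0 < Real.log L := Real.log_pos (by linarith)
  have hll : Real.log t ≤ Real.log L := Real.log_le_log ht0 h4
  unfold ph
  constructor
  · rw [← Real.sqrt_sq h1δ.le, ← Real.sqrt_mul (by positivity)]
    apply Real.sqrt_le_sqrt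
    calc (1 - δ) ^ 2 * (L / Real.log L) ≤ (1 - δ) * (L / Real.log L) := by
          apply mul_le_mul_of_nonneg_right _ (by positivity)
          nlinarith
      _ = ((1 - δ) * L) / Real.log L := by ring
      _ ≤ t / Real.log L := div_le_div_of_nonneg_right h3 hlL.le
      _ ≤ t / Real.log t := div_le_div_of_nonneg_left ht0.le hlt hll
  · apply Real.sqrt_le_sqrt
    have h5 := Real.log_div_self_antitoneOn (show t ∈ {x | Real.exp 1 ≤ x} from he.trans ht3)
      (show L ∈ {x | Real.exp 1 ≤ x} from he.trans h2) h4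
    simp only at h5
    rw [div_le_div_iff₀ hL0 ht0] at h5
    rw [div_le_div_iff₀ hlt hlL]
    linarith

theorem ph_le {δ t : ℝ} (hδ : 0 < δ) (ht : 3 ≤ t) : ph t ≤ δ * t + 1 / δ := by
  have he : Real.exp 1 ≤ 3 := by have := Real.exp_one_lt_d9; linarith
  have h1 : 1 ≤ Real.log t := by
    rw [Real.le_log_iff_exp_le (by linarith)]
    linarith
  have h2 : ph t ≤ √t := Real.sqrt_le_sqrt (div_le_self (by linarith) h1)
  have h3 : √t ≤ δ * t + 1 / δ := by
    have h4 := Real.mul_self_sqrt (show 0 ≤ t by linarith)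
    have h5 : 0 ≤ (δ * √t - 1) ^ 2 := sq_nonneg _
    have h6 : 0 ≤ √t := Real.sqrt_nonneg _
    have h8 : (δ * √t - 1) ^ 2 = δ * (δ * t) - 2 * (δ * √t) + 1 := by
      have : (δ * √t - 1) ^ 2 = δ * (δ * (√t * √t)) - 2 * (δ * √t) + 1 := by ring
      rw [this, h4]
    rw [h8] at h5
    have h9 : 0 ≤ δ * √t := mul_nonneg hδ.le h6
    have h7 : δ * √t ≤ δ * (δ * t + 1 / δ) := by
      have : δ * (1 / δ) = 1 := by field_simp
      rw [mul_add, this]
      linarith
    exact le_of_mul_le_mul_left h7 hδ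
  linarith

/-- a limit from bounds -/
theorem lim_of {N : ℝ → ℕ} {a c : ℝ}
    (h : ∀ ε : ℝ, 0 < ε → ∀ᶠ B : ℝ in atTop,
      Real.exp (a * Real.log B + (c - ε) * √(Real.log B / Real.log (Real.log B))) ≤ N B ∧
      (N B : ℝ) ≤ Real.exp (a * Real.log B + (c + ε) * √(Real.log B / Real.log (Real.log B)))) :
    Tendsto (fun B : ℝ => (Real.log (N B : ℝ) - a * Real.log B) /
      √(Real.log B / Real.log (Real.log B))) atTop (𝓝 c) := by
  rw [Metric.tendsto_atTop']
  intro ε hε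
  have h1 := h (ε / 2) (by positivity)
  have h2 := Real.tendsto_log_atTop.eventually (W_large 1)
  obtain ⟨B₀, hB₀⟩ := eventually_atTop.1 (h1.and h2)
  refine ⟨B₀, fun B hB => ?_⟩
  obtain ⟨⟨g1, g2⟩, g3⟩ := hB₀ B hB.le
  obtain ⟨W, hW⟩ : ∃ W : ℝ, W = √(Real.log B / Real.log (Real.log B)) := ⟨_, rfl⟩
  rw [← hW] at g1 g2 g3 ⊢
  have hW0 : 0 < W := by linarith
  have hN : (0 : ℝ) < N B := lt_of_lt_of_le (Real.exp_pos _) g1
  rw [← Real.le_log_iff_exp_le hN] at g1
  rw [← Real.log_le_iff_le_exp hN] at g2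
  rw [Real.dist_eq, abs_lt]
  constructor
  · have : c - ε < (Real.log (N B) - a * Real.log B) / W := by
      rw [lt_div_iff₀ hW0]
      have : 0 < ε / 2 * W := by positivity
      linarith
    linarith
  · have : (Real.log (N B) - a * Real.log B) / W < c + ε := by
      rw [div_lt_iff₀ hW0]
      have : 0 < ε / 2 * W := by positivity
      linarith
    linarith

variable {K : Type} [Field K] [NumberField K]

/-- the set of the theorem -/
def XU (z : InfinitePlace K → ℂ) (η κ c u B : ℝ) : Set K :=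
  {x | x ≠ 0 ∧ x ≠ 1 ∧ Real.exp (hgt x) ≤ B ∧ NearK z η x ∧
    nn x ≤ (3 - κ) * hgt x - u * ph (hgt x) + c}

theorem hgt_finite (B : ℝ) : ({x | x ≠ 0 ∧ x ≠ 1 ∧ Real.exp (hgt x) ≤ B} : Set K).Finite := by
  rcases le_or_gt B 0 with hB | hB
  · refine Set.Finite.subset Set.finite_empty ?_
    rintro x ⟨-, -, h1⟩
    exact absurd (Real.exp_pos (hgt x)) (not_lt.2 (h1.trans hB))
  · refine Set.Finite.of_finite_image (f := pt) ?_ pt_inj.injOn
    refine (pts_finite K (finrank ℚ K * Real.log B)).subset ?_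
    rintro P ⟨x, ⟨-, -, h1⟩, rfl⟩
    rw [← hh_pt] at h1
    rw [← Real.exp_log hB] at h1
    exact exp_hh.1 h1

theorem XU_finite (z : InfinitePlace K → ℂ) (η κ c u B : ℝ) : (XU z η κ c u B).Finite :=
  (hgt_finite B).subset fun x hx => ⟨hx.1, hx.2.1, hx.2.2.1⟩

/-- basic facts on the points `0, ∞, 1` -/
theorem base (K : Type) [Field K] [NumberField K] : ∃ S : Finset (Pr K), Al (pr (al3 K)) ∧
    Gd S (pr (al3 K)) ∧ ∀ x : K, x ≠ 0 → x ≠ 1 → Of (pr (al3 K)) x ∧
      (∃ P, IsP S (pr (al3 K)) x P) ∧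
      ∀ P, IsP S (pr (al3 K)) x P → tr P = ∑ l, rl (P l) ∧
        ∀ l, rl (P l) ≤ finrank ℚ K * ncl (∅ : Set (Pr K)) (al3 K l) (pt x) ∧
        finrank ℚ K * ncl (∅ : Set (Pr K)) (al3 K l) (pt x) ≤
          rl (P l) + ∑ v ∈ S, Real.log (Nv v) := by
  have hA := al_pr (al3_ne (K := K)) al3_dist
  obtain ⟨S, hG, hTS⟩ := Pool.Agent.N340.QP.good_set (basq_all K) (q := 3) (by norm_num)
    (T := (∅ : Set (Pr K))) Set.finite_empty hA
  obtain ⟨-, hA2⟩ := basq_all K 3 (pr (al3 K)) (by norm_num) hA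
  obtain ⟨C₁, -, hA3⟩ := hA2 _ hG
  refine ⟨S, hA, hG, fun x x0 x1 => ?_⟩
  have hoff := (off_iff x).2 ⟨x0, x1⟩
  obtain ⟨n1, e1⟩ := pt_rep x
  have o1 : Of (pr (al3 K)) x := by
    have := of_rep n1 hoff
    rwa [e1] at this
  refine ⟨o1, (hA3 _ o1).1, fun P hP => ⟨?_, fun l => ?_⟩⟩
  · exact Pool.Agent.N340.QP.tr_eq ((hA3 _ o1).2.1 P hP).1
  · exact Pool.Agent.N401.QP.ncl_bounds (Set.empty_subset _) al3_ne n1 hoff (by rw [e1]; exact hP) l

theorem triv (K : Type) [Field K] [NumberField K] : ∃ D : ℝ, 0 < D ∧ ∀ (Y : ℝ) (F : Finset K),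
    0 ≤ Y → (∀ x ∈ F, x ≠ 0 ∧ x ≠ 1 ∧ hgt x ≤ Y) →
    (F.card : ℝ) ≤ D * Real.exp (2 * (finrank ℚ K * Y)) := by
  have hd : (0 : ℝ) < finrank ℚ K := fin_pos
  obtain ⟨S, hA, hG, hx⟩ := base K
  obtain ⟨-, hA2⟩ := basq_all K 3 (pr (al3 K)) (by norm_num) hA
  obtain ⟨C₁, -, hA3⟩ := hA2 _ hG
  obtain ⟨C, hC, h⟩ := cellq_all K 3 (pr (al3 K)) S hA hG
  refine ⟨2 * C, by positivity, fun Y F hY hF => ?_⟩
  have h1 := h (finrank ℚ K * Y) (fun _ => 0) (fun _ => 0) (fun _ => 0) F (by positivity)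
    (fun _ _ => le_rfl) (fun l v hv => rfl) (by
      intro x hxF
      obtain ⟨x0, x1, x2⟩ := hF x hxF
      obtain ⟨o1, ⟨P, hP⟩, -⟩ := hx x x0 x1
      refine ⟨o1, ?_, fun v hv => ?_, P, hP, fun l => zero_le⟩
      · rw [hr_eq]
        exact mul_le_mul_of_nonneg_left x2 hd.le
      · have := ((hA3 x o1).2.2.1 v hv).1 0
        linarith)
  have h2 : tl (fun _ : Fin 3 => (0 : Idl K)) = 0 := by
    unfold tl len
    simp
  rw [h2] at h1
  simp only [Finset.sum_const_zero, sub_zero] at h1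
  have h3 : (1 : ℝ) ≤ Real.exp (2 * (finrank ℚ K * Y)) := Real.one_le_exp (by positivity)
  nlinarith

theorem sum_sqrt {κ : ℝ} (hκ : 0 < κ) (y : Fin 3 → ℝ) (hy : ∀ l, 0 ≤ y l) (hs : ∑ l, y l = κ) :
    ∑ l, √(8 * y l) ≤ √(24 * κ) := by
  obtain ⟨r, hr⟩ : ∃ r : ℝ, r = √(8 * κ / 3) := ⟨_, rfl⟩
  have hr0 : 0 < r := by rw [hr]; exact Real.sqrt_pos.2 (by positivity)
  have hr2 : r * r = 8 * κ / 3 := by rw [hr]; exact Real.mul_self_sqrt (by positivity)
  have h1 : √(24 * κ) = 3 * r := by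
    rw [Real.sqrt_eq_iff_mul_self_eq (by positivity) (by positivity)]
    have : 3 * r * (3 * r) = 9 * (r * r) := by ring
    rw [this, hr2]
    ring
  have h2 : ∀ l, r * (2 * √(8 * y l)) ≤ 8 * y l + r * r := by
    intro l
    have h3 := Real.mul_self_sqrt (show 0 ≤ 8 * y l by have := hy l; positivity)
    have h4 : 0 ≤ (√(8 * y l) - r) ^ 2 := sq_nonneg _
    have h5 : (√(8 * y l) - r) ^ 2 = √(8 * y l) * √(8 * y l) - r * (2 * √(8 * y l)) + r * r := by
      ring
    rw [h5, h3] at h4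
    linarith
  have h3 : r * (2 * ∑ l, √(8 * y l)) ≤ 8 * κ + 3 * (r * r) := by
    have e1 : r * (2 * ∑ l, √(8 * y l)) = ∑ l, r * (2 * √(8 * y l)) := by
      rw [Finset.mul_sum, Finset.mul_sum]
    rw [e1]
    refine (Finset.sum_le_sum fun l _ => h2 l).trans (le_of_eq ?_)
    rw [Finset.sum_add_distrib, ← Finset.mul_sum, hs]
    simp
  rw [h1]
  have h4 : r * (2 * ∑ l, √(8 * y l)) ≤ r * (2 * (3 * r)) := by
    have : r * (2 * (3 * r)) = 6 * (r * r) := by ring
    rw [this]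
    linarith
  have h5 := le_of_mul_le_mul_left h4 hr0
  linarith

theorem up_sh (z : InfinitePlace K → ℂ) (η κ c u : ℝ) (hz : ∀ w, w.IsReal → (z w).im = 0)
    (hη : 0 < η) (hκ0 : 0 < κ) (hκ1 : κ < 1) {ε : ℝ} (hε : 0 < ε) :
    ∀ᶠ B : ℝ in atTop, ((XU z η κ c u B).ncard : ℝ) ≤
      Real.exp (finrank ℚ K * (2 - κ) * Real.log B +
        (√(24 * κ * finrank ℚ K) - finrank ℚ K * u + ε) *
          √(Real.log B / Real.log (Real.log B))) := by
  classical
  have hd : (0 : ℝ) < finrank ℚ K := fin_pos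
  obtain ⟨d, hdd⟩ : ∃ d : ℝ, d = finrank ℚ K := ⟨_, rfl⟩
  rw [← hdd] at hd
  simp only [← hdd]
  have hsd : 0 < √d := Real.sqrt_pos.2 hd
  obtain ⟨S, hA, hG, hbase⟩ := base K
  have hS0 : 0 ≤ ∑ v ∈ S, Real.log (Nv v) := sum_nonneg fun v _ => (log_Nv_pos v).le
  obtain ⟨X₀, δ', hX₀, hδ0, hδ1, hup⟩ := uplu K 3 1 (by norm_num) le_rfl (basq_all K) (cellq_all K)
    (rank_all K) (Pool.Agent.N654.QP.bigq3 K) (pr (al3 K)) S κ √(24 * κ) (ε / (8 * √d))
    (∑ v ∈ S, Real.log (Nv v) + d * |c|) Set.univ isClosed_univ hA hG hκ0 hκ1 (by positivity)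
    (by positivity) (fun y _ hy0 hys => sum_sqrt hκ0 y hy0 hys)
  -- the shift
  obtain ⟨ε₁, hε₁⟩ : ∃ ε₁ : ℝ, ε₁ = ε / (8 * d) := ⟨_, rfl⟩
  have hε₁0 : 0 < ε₁ := by rw [hε₁]; positivity
  obtain ⟨δ₂, hδ₂⟩ : ∃ δ₂ : ℝ, δ₂ = min δ' (ε₁ / (|u| + 1)) := ⟨_, rfl⟩
  have hδ₂0 : 0 < δ₂ := by rw [hδ₂]; exact lt_min hδ0 (by positivity)
  have hδ₂1 : δ₂ ≤ δ' := by rw [hδ₂]; exact min_le_left _ _
  have hδ₂2 : |u| * δ₂ ≤ ε₁ := by
    have h1 : δ₂ ≤ ε₁ / (|u| + 1) := by rw [hδ₂]; exact min_le_right _ _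
    rw [le_div_iff₀ (by positivity)] at h1
    nlinarith [abs_nonneg u]
  -- the small heights
  obtain ⟨δ₃, hδ₃⟩ : ∃ δ₃ : ℝ, δ₃ = min (κ / 2) (δ₂ / 4) := ⟨_, rfl⟩
  have hδ₃0 : 0 < δ₃ := by rw [hδ₃]; exact lt_min (by positivity) (by positivity)
  have hδ₃1 : δ₃ ≤ κ / 2 := by rw [hδ₃]; exact min_le_left _ _
  have hδ₃2 : δ₃ ≤ δ₂ / 4 := by rw [hδ₃]; exact min_le_right _ _
  obtain ⟨δ₄, hδ₄⟩ : ∃ δ₄ : ℝ, δ₄ = δ₃ / (|u| + 1) := ⟨_, rfl⟩
  have hδ₄0 : 0 < δ₄ := by rw [hδ₄]; positivity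
  have hδ₄1 : |u| * δ₄ ≤ δ₃ := by
    rw [hδ₄, mul_div_assoc', div_le_iff₀ (by positivity)]
    nlinarith [abs_nonneg u]
  obtain ⟨f2, l2⟩ := xq_limit z η (κ - δ₃) (|u| / δ₄ + |c|) hz hη (by linarith) (by linarith)
  have b2 := of_lim (a := finrank ℚ K * (2 - (κ - δ₃)))
    (by rw [← hdd]; apply mul_pos hd; linarith) l2 one_pos
  simp only [← hdd] at b2
  obtain ⟨D, hD, htriv⟩ := triv K
  simp only [← hdd] at htriv
  obtain ⟨σ, hσ⟩ : ∃ σ : ℝ, σ = √(24 * κ * d) := ⟨_, rfl⟩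
  obtain ⟨τ, hτ⟩ : ∃ τ : ℝ, τ = √(24 * (κ - δ₃) * d) := ⟨_, rfl⟩
  simp only [← hσ]
  rw [← hτ] at b2
  have t1 : Tendsto (fun L : ℝ => Real.exp ((1 - δ₂) * L)) atTop atTop :=
    Real.tendsto_exp_atTop.comp (tendsto_id.const_mul_atTop (by linarith))
  have ev1 := t1.eventually b2
  have ev2 := ph_near hδ₂0 (by linarith)
  have ev3 := ratio hd (√(24 * κ) + ε / (8 * √d)) (show 0 < ε / 8 by positivity)
  have ev4 := small (t := |τ + 1| + |σ - d * u + ε|) (δ := d * δ₂ / 8) (by positivity)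
  have ev5 := small (t := d * (|u| + ε₁)) (δ := d * δ') (by positivity)
  have ev6 := W_large (4 / ε * 2)
  filter_upwards [Real.tendsto_log_atTop.eventually ev1, Real.tendsto_log_atTop.eventually ev2,
    Real.tendsto_log_atTop.eventually ev3, Real.tendsto_log_atTop.eventually ev4,
    Real.tendsto_log_atTop.eventually ev5, Real.tendsto_log_atTop.eventually ev6,
    Real.tendsto_log_atTop.eventually_ge_atTop (X₀ / d),
    Real.tendsto_log_atTop.eventually_ge_atTop (8 * (1 + Real.log (D + 1) + 6 * d) / (d * δ₂)),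
    Real.tendsto_log_atTop.eventually_ge_atTop 1,
    eventually_gt_atTop (0 : ℝ)] with B g1 g2 g3 g4 g5 g6 g7 g8 g9 g10
  obtain ⟨L, hL⟩ : ∃ L : ℝ, L = Real.log B := ⟨_, rfl⟩
  have hB : B = Real.exp L := by rw [hL, Real.exp_log g10]
  rw [← hL] at g1 g2 g3 g4 g5 g6 g7 g8 g9 ⊢
  obtain ⟨W, hW⟩ : ∃ W : ℝ, W = √(L / Real.log L) := ⟨_, rfl⟩
  have hWp : ph L = W := by rw [hW]; rfl
  have hW0 : 0 ≤ W := by rw [hW]; exact Real.sqrt_nonneg _
  rw [← hW] at g3 g4 g5 g6 ⊢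
  rw [Real.log_exp] at g1
  have hL1 : 0 < L := by linarith
  have habs : ∀ a : ℝ, |a * W| = |a| * W := fun a => by rw [abs_mul, abs_of_nonneg hW0]
  rw [abs_of_nonneg (show 0 ≤ |τ + 1| + |σ - d * u + ε| by positivity)] at g4
  rw [abs_of_nonneg (show 0 ≤ d * (|u| + ε₁) by positivity)] at g5
  obtain ⟨M, hM⟩ : ∃ M : ℝ, M = d * (2 - κ) * L + (σ - d * u + ε) * W := ⟨_, rfl⟩
  rw [← hM]
  have hMn : -(|σ - d * u + ε| * W) ≤ (σ - d * u + ε) * W := by
    rw [← habs]
    exact neg_abs_le _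
  have h8 : 8 * (1 + Real.log (D + 1) + 6 * d) ≤ d * δ₂ * L := by
    rw [div_le_iff₀ (by positivity)] at g8
    linarith
  have hlogD : 0 ≤ Real.log (D + 1) := Real.log_nonneg (by linarith)
  have four : (4 : ℝ) ≤ Real.exp 2 := by
    have h1 := Real.add_one_le_exp (1 : ℝ)
    have h2 : Real.exp 2 = Real.exp 1 * Real.exp 1 := by rw [← Real.exp_add]; norm_num
    rw [h2]
    nlinarith
  -- the three sets
  obtain ⟨A1, hA1⟩ : ∃ A1 : Set K, A1 = {x | x ∈ XU z η κ c u B ∧ (1 - δ₂) * L < hgt x} :=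
    ⟨_, rfl⟩
  obtain ⟨A2, hA2⟩ : ∃ A2 : Set K,
      A2 = XQ z η (κ - δ₃) (|u| / δ₄ + |c|) (Real.exp ((1 - δ₂) * L)) := ⟨_, rfl⟩
  obtain ⟨A3, hA3⟩ : ∃ A3 : Set K,
      A3 = {x | x ≠ 0 ∧ x ≠ 1 ∧ Real.exp (hgt x) ≤ Real.exp 3} := ⟨_, rfl⟩
  have fA1 : A1.Finite := by
    rw [hA1]
    exact (XU_finite z η κ c u B).subset fun x hx => hx.1
  have fA2 : A2.Finite := by rw [hA2]; exact f2 _
  have fA3 : A3.Finite := by rw [hA3]; exact hgt_finite _
  have hsub : XU z η κ c u B ⊆ A1 ∪ (A2 ∪ A3) := by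
    intro x hx
    by_cases k1 : (1 - δ₂) * L < hgt x
    · left
      rw [hA1]
      exact ⟨hx, k1⟩
    · push Not at k1
      right
      by_cases k2 : hgt x ≤ 3
      · right
        rw [hA3]
        exact ⟨hx.1, hx.2.1, Real.exp_le_exp.2 k2⟩
      · push Not at k2
        left
        rw [hA2]
        refine ⟨hx.1, hx.2.1, Real.exp_le_exp.2 k1, hx.2.2.2.1, ?_⟩
        have e1 := hx.2.2.2.2
        have e2 := ph_le hδ₄0 k2.le
        have e3 : -(u * ph (hgt x)) ≤ |u| * ph (hgt x) := by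
          have := neg_abs_le (u * ph (hgt x))
          rw [abs_mul, abs_of_nonneg (ph_nonneg _)] at this
          have := abs_nonneg (u * ph (hgt x))
          have h3 : -(u * ph (hgt x)) ≤ |u * ph (hgt x)| := neg_le_abs _
          rwa [abs_mul, abs_of_nonneg (ph_nonneg _)] at h3
        have e4 : |u| * ph (hgt x) ≤ |u| * (δ₄ * hgt x + 1 / δ₄) :=
          mul_le_mul_of_nonneg_left e2 (abs_nonneg u)
        have e5 : |u| * (δ₄ * hgt x + 1 / δ₄) = |u| * δ₄ * hgt x + |u| / δ₄ := by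
          field_simp
        have e6 : |u| * δ₄ * hgt x ≤ δ₃ * hgt x :=
          mul_le_mul_of_nonneg_right hδ₄1 (by linarith)
        have e7 := le_abs_self c
        linarith
  have hcard : ((XU z η κ c u B).ncard : ℝ) ≤ A1.ncard + (A2.ncard + A3.ncard) := by
    have e1 := Set.ncard_le_ncard hsub (fA1.union (fA2.union fA3))
    have e2 := e1.trans ((Set.ncard_union_le _ _).trans
      (Nat.add_le_add_left (Set.ncard_union_le _ _) _))
    exact_mod_cast e2
  -- the first set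
  have c1 : 4 * (A1.ncard : ℝ) ≤ Real.exp M := by
    obtain ⟨F, hF⟩ : ∃ F : Finset K, F = fA1.toFinset := ⟨_, rfl⟩
    have hFc : A1.ncard = F.card := by rw [hF, Set.ncard_eq_toFinset_card _ fA1]
    rw [hFc]
    obtain ⟨U, hU⟩ : ∃ U : ℝ, U = d * ((u - ε₁) * W) := ⟨_, rfl⟩
    have hUabs : |U| ≤ δ' * (d * L) := by
      rw [hU, abs_mul, abs_of_pos hd, habs]
      have e1 : |u - ε₁| ≤ |u| + ε₁ := by
        have := abs_sub u ε₁
        rwa [abs_of_pos hε₁0] at this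
      have e2 : d * (|u - ε₁| * W) ≤ d * ((|u| + ε₁) * W) :=
        mul_le_mul_of_nonneg_left (mul_le_mul_of_nonneg_right e1 hW0) hd.le
      linarith
    have k1 := hup (d * L) U F (by
      rw [div_le_iff₀ hd] at g7
      linarith) hUabs (by
      intro x hx
      rw [hF, Set.Finite.mem_toFinset, hA1] at hx
      obtain ⟨⟨x0, x1, x2, -, x3⟩, x4⟩ := hx
      obtain ⟨o1, ⟨P, hP⟩, hall⟩ := hbase x x0 x1
      obtain ⟨htr, hb⟩ := hall P hP
      rw [hB] at x2
      have x2' := Real.exp_le_exp.1 x2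
      have hh1 : hr (aff x) = d * hgt x := by rw [hr_eq, hdd]
      have hhp : 0 < hgt x := lt_of_le_of_lt (mul_nonneg (by linarith) hL1.le) x4
      refine ⟨o1, ?_, ?_, P, hP, ?_, fun l => 1 - rl (P l) / hr (aff x), Set.mem_univ _,
        fun l => ?_⟩
      · rw [hh1]
        have e1 : (1 - δ') * (d * L) ≤ d * ((1 - δ₂) * L) := by
          have : (1 - δ') * L ≤ (1 - δ₂) * L := mul_le_mul_of_nonneg_right (by linarith) hL1.le
          have := mul_le_mul_of_nonneg_left this hd.le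
          linarith
        have e2 := mul_lt_mul_of_pos_left x4 hd
        linarith
      · rw [hh1]
        exact mul_le_mul_of_nonneg_left x2' hd.le
      · rw [htr, hh1]
        have m1 : ∑ l, rl (P l) ≤
            d * ∑ l, ncl (∅ : Set (Pr K)) (al3 K l) (pt x) := by
          rw [mul_sum]
          refine sum_le_sum fun l _ => ?_
          rw [hdd]
          exact (hb l).1
        rw [sum_ncl x0 x1] at m1
        have m2 := mul_le_mul_of_nonneg_left x3 hd.le
        unfold nn at m2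
        have m3 := mul_le_mul_of_nonneg_left (le_abs_self c) hd.le
        have m4 : |u * (ph (hgt x) - W)| ≤ ε₁ * W := by
          obtain ⟨e1, e2⟩ := g2 (hgt x) x4.le x2'
          rw [hWp] at e1 e2
          rw [abs_mul]
          have e3 : |ph (hgt x) - W| ≤ δ₂ * W := by
            apply abs_le.2
            have : 0 ≤ δ₂ * W := by positivity
            constructor <;> linarith
          calc |u| * |ph (hgt x) - W| ≤ |u| * (δ₂ * W) :=
                mul_le_mul_of_nonneg_left e3 (abs_nonneg u)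
            _ = |u| * δ₂ * W := by ring
            _ ≤ ε₁ * W := mul_le_mul_of_nonneg_right hδ₂2 hW0
        have m5 := (abs_le.1 m4).1
        have m6 : d * (-(u * ph (hgt x))) ≤ d * (-(u * W) + ε₁ * W) := by
          apply mul_le_mul_of_nonneg_left _ hd.le
          linarith
        rw [hU]
        push_cast
        linarith
      · show |rl (P l) - (1 - (1 - rl (P l) / hr (aff x))) * hr (aff x)| ≤ _
        have hhr : hr (aff x) ≠ 0 := by rw [hh1]; positivity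
        have e1 : (1 - (1 - rl (P l) / hr (aff x))) * hr (aff x) = rl (P l) := by
          field_simp
          ring
        rw [e1, sub_self, abs_zero]
        positivity)
    have e1 : (√(24 * κ) + ε / (8 * √d)) * √d = σ + ε / 8 := by
      have e2 : √(24 * κ) * √d = σ := by rw [hσ, ← Real.sqrt_mul (by positivity)]
      rw [add_mul, e2]
      field_simp
    rw [e1] at g3
    have e3 : d * ε₁ = ε / 8 := by rw [hε₁]; field_simp
    have e4 : (2 - κ) * (d * L) - U + (√(24 * κ) + ε / (8 * √d)) * √(d * L / Real.log (d * L)) ≤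
        M - 2 := by
      have e5 : U = d * u * W - ε / 8 * W := by
        rw [hU, ← e3]; ring
      have e6 : 4 / ε * 2 * ε ≤ W * ε := mul_le_mul_of_nonneg_right g6 hε.le
      have e7 : 4 / ε * 2 * ε = 8 := by field_simp; norm_num
      rw [e7] at e6
      rw [e5, hM]
      linarith
    calc 4 * (F.card : ℝ) ≤ Real.exp 2 * Real.exp ((2 - κ) * (d * L) - U +
          (√(24 * κ) + ε / (8 * √d)) * √(d * L / Real.log (d * L))) :=
          mul_le_mul four k1 (Nat.cast_nonneg _) (Real.exp_pos _).le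
      _ ≤ _ := by
          rw [← Real.exp_add]
          apply Real.exp_le_exp.2
          linarith
  -- the second set
  have c2 : 4 * (A2.ncard : ℝ) ≤ Real.exp M := by
    have k1 := g1.2
    rw [← hA2] at k1
    have e1 : (τ + 1) * √((1 - δ₂) * L / Real.log ((1 - δ₂) * L)) ≤ |τ + 1| * W := by
      have e2 := (g2 ((1 - δ₂) * L) le_rfl (by nlinarith)).2
      rw [hWp] at e2
      have e3 : √((1 - δ₂) * L / Real.log ((1 - δ₂) * L)) = ph ((1 - δ₂) * L) := rfl
      rw [e3]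
      exact mul_le_mul (le_abs_self _) e2 (ph_nonneg _) (abs_nonneg _)
    have e4 : d * (2 - (κ - δ₃)) * ((1 - δ₂) * L) ≤ d * (2 - κ) * L - 3 / 4 * (d * δ₂ * L) := by
      have e5 : (2 - (κ - δ₃)) * (1 - δ₂) ≤ 2 - κ - 3 / 4 * δ₂ := by nlinarith
      have e6 : 0 < d * L := by positivity
      have e7 := mul_le_mul_of_nonneg_right e5 e6.le
      linarith
    calc 4 * (A2.ncard : ℝ) ≤ Real.exp 2 * Real.exp (d * (2 - (κ - δ₃)) * ((1 - δ₂) * L) +
          (τ + 1) * √((1 - δ₂) * L / Real.log ((1 - δ₂) * L))) :=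
          mul_le_mul four k1 (Nat.cast_nonneg _) (Real.exp_pos _).le
      _ ≤ _ := by
          rw [← Real.exp_add]
          apply Real.exp_le_exp.2
          rw [hM]
          linarith
  -- the third set
  have c3 : 4 * (A3.ncard : ℝ) ≤ Real.exp M := by
    obtain ⟨F, hF⟩ : ∃ F : Finset K, F = fA3.toFinset := ⟨_, rfl⟩
    have hFc : A3.ncard = F.card := by rw [hF, Set.ncard_eq_toFinset_card _ fA3]
    rw [hFc]
    have k1 := htriv 3 F (by norm_num) (by
      intro x hx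
      rw [hF, Set.Finite.mem_toFinset, hA3] at hx
      exact ⟨hx.1, hx.2.1, Real.exp_le_exp.1 hx.2.2⟩)
    have e1 : D ≤ Real.exp (Real.log (D + 1)) := by
      rw [Real.exp_log (by linarith)]
      linarith
    have e2 : d * δ₂ * L ≤ d * L := by
      have : d * δ₂ ≤ d * 1 := mul_le_mul_of_nonneg_left (by linarith) hd.le
      have := mul_le_mul_of_nonneg_right this hL1.le
      linarith
    have e3 : d * 1 * L ≤ d * (2 - κ) * L :=
      mul_le_mul_of_nonneg_right (mul_le_mul_of_nonneg_left (by linarith) hd.le) hL1.le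
    have e4 : 0 ≤ |τ + 1| * W := by positivity
    calc 4 * (F.card : ℝ) ≤ Real.exp 2 * (D * Real.exp (2 * (d * 3))) :=
          mul_le_mul four k1 (Nat.cast_nonneg _) (Real.exp_pos _).le
      _ ≤ Real.exp 2 * (Real.exp (Real.log (D + 1)) * Real.exp (2 * (d * 3))) := by
          apply mul_le_mul_of_nonneg_left _ (Real.exp_pos _).le
          exact mul_le_mul_of_nonneg_right e1 (Real.exp_pos _).le
      _ ≤ _ := by
          rw [← Real.exp_add, ← Real.exp_add]
          apply Real.exp_le_exp.2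
          rw [hM]
          linarith
  have := Real.exp_pos M
  linarith

theorem loju_all (K : Type) [Field K] [NumberField K] : S_LOJU K :=
  loju K (basq_all K) (cellq_all K)
    (Pool.Agent.N717.QP.lowd K (cellq_all K) (Pool.Agent.N34.QP.dscg K)) (winj_all K)

theorem low_sh (z : InfinitePlace K → ℂ) (η κ c u : ℝ) (hz : ∀ w, w.IsReal → (z w).im = 0)
    (hη : 0 < η) (hκ0 : 0 < κ) (hκ1 : κ < 1) {ε : ℝ} (hε : 0 < ε) :
    ∀ᶠ B : ℝ in atTop, Real.exp (finrank ℚ K * (2 - κ) * Real.log B +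
        (√(24 * κ * finrank ℚ K) - finrank ℚ K * u - ε) *
          √(Real.log B / Real.log (Real.log B))) ≤ ((XU z η κ c u B).ncard : ℝ) := by
  classical
  have hd : (0 : ℝ) < finrank ℚ K := fin_pos
  obtain ⟨d, hdd⟩ : ∃ d : ℝ, d = finrank ℚ K := ⟨_, rfl⟩
  rw [← hdd] at hd
  simp only [← hdd]
  obtain ⟨S, hA, hG, hbase⟩ := base K
  have hS0 : 0 ≤ ∑ v ∈ S, Real.log (Nv v) := sum_nonneg fun v _ => (log_Nv_pos v).le
  obtain ⟨σ, hσ⟩ : ∃ σ : ℝ, σ = √(24 * κ * d) := ⟨_, rfl⟩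
  have hσ0 : 0 ≤ σ := by rw [hσ]; exact Real.sqrt_nonneg _
  simp only [← hσ]
  obtain ⟨ε₀, hε₀⟩ : ∃ ε₀ : ℝ, ε₀ = min (1 / 2) (ε / (8 * σ + 8)) := ⟨_, rfl⟩
  have hε₀0 : 0 < ε₀ := by rw [hε₀]; exact lt_min (by norm_num) (by positivity)
  have hε₀1 : ε₀ < 1 := by rw [hε₀]; exact lt_of_le_of_lt (min_le_left _ _) (by norm_num)
  have hε₀2 : ε₀ * σ ≤ ε / 8 := by
    have h1 : ε₀ ≤ ε / (8 * σ + 8) := by rw [hε₀]; exact min_le_right _ _
    rw [le_div_iff₀ (by positivity)] at h1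
    linarith
  obtain ⟨z', hz1, hz2, hz3⟩ := Pool.Agent.N360.QP.move z hη hz
  have hsum3 : ∑ _l : Fin 3, κ / 3 = κ := by simp; ring
  obtain ⟨X₀, δ', hX₀, hδ0, hlo⟩ := loju_all K 3 (pr (al3 K)) S (fun _ => κ / 3) ε₀
    (∑ v ∈ S, Real.log (Nv v) + d * |c|) z' (η / 2) (by norm_num) hA hG (fun _ => by positivity)
    (by rw [hsum3]; exact hκ1) hε₀0 hε₀1 (by positivity) hz1 hz2 (by positivity)
  -- the shift
  obtain ⟨ε₁, hε₁⟩ : ∃ ε₁ : ℝ, ε₁ = ε / (8 * d) := ⟨_, rfl⟩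
  have hε₁0 : 0 < ε₁ := by rw [hε₁]; positivity
  obtain ⟨δ₂, hδ₂⟩ : ∃ δ₂ : ℝ, δ₂ = min (1 / 2) (ε₁ / (|u| + 1)) := ⟨_, rfl⟩
  have hδ₂0 : 0 < δ₂ := by rw [hδ₂]; exact lt_min (by norm_num) (by positivity)
  have hδ₂1 : δ₂ ≤ 1 / 2 := by rw [hδ₂]; exact min_le_left _ _
  have hδ₂2 : |u| * δ₂ ≤ ε₁ := by
    have h1 : δ₂ ≤ ε₁ / (|u| + 1) := by rw [hδ₂]; exact min_le_right _ _
    rw [le_div_iff₀ (by positivity)] at h1
    nlinarith [abs_nonneg u]
  obtain ⟨δ₃, hδ₃⟩ : ∃ δ₃ : ℝ, δ₃ = min (κ / 2) (δ₂ / 4) := ⟨_, rfl⟩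
  have hδ₃0 : 0 < δ₃ := by rw [hδ₃]; exact lt_min (by positivity) (by positivity)
  have hδ₃1 : δ₃ ≤ κ / 2 := by rw [hδ₃]; exact min_le_left _ _
  have hδ₃2 : δ₃ ≤ δ₂ / 4 := by rw [hδ₃]; exact min_le_right _ _
  obtain ⟨f2, l2⟩ := xq_limit z η (κ - δ₃) 0 hz hη (by linarith) (by linarith)
  have b2 := of_lim (a := finrank ℚ K * (2 - (κ - δ₃)))
    (by rw [← hdd]; apply mul_pos hd; linarith) l2 one_pos
  simp only [← hdd] at b2
  obtain ⟨D, hD, htriv⟩ := triv K
  simp only [← hdd] at htriv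
  obtain ⟨τ, hτ⟩ : ∃ τ : ℝ, τ = √(24 * (κ - δ₃) * d) := ⟨_, rfl⟩
  rw [← hτ] at b2
  have t1 : Tendsto (fun L : ℝ => Real.exp ((1 - δ₂) * L)) atTop atTop :=
    Real.tendsto_exp_atTop.comp (tendsto_id.const_mul_atTop (by linarith))
  have ev1 := t1.eventually b2
  have ev2 := ph_near hδ₂0 (by linarith)
  have ev3 := ratio hd (-((1 - ε₀) * √(24 * κ))) (show 0 < ε / 8 by positivity)
  have ev4 := small (t := |τ + 1| + |σ - d * u - ε|) (δ := d * min δ₂ (1 - κ) / 8) (by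
    have : 0 < min δ₂ (1 - κ) := lt_min hδ₂0 (by linarith)
    positivity)
  have ev5 := small (t := d * (|u| + ε₁)) (δ := d * δ') (by positivity)
  have ev5' := small (t := |u| + ε₁) (δ := δ₃ / 2) (by positivity)
  have ev6 := W_large (4 / ε * 2)
  filter_upwards [Real.tendsto_log_atTop.eventually ev1, Real.tendsto_log_atTop.eventually ev2,
    Real.tendsto_log_atTop.eventually ev3, Real.tendsto_log_atTop.eventually ev4,
    Real.tendsto_log_atTop.eventually ev5, Real.tendsto_log_atTop.eventually ev5',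
    Real.tendsto_log_atTop.eventually ev6,
    Real.tendsto_log_atTop.eventually_ge_atTop (X₀ / d),
    Real.tendsto_log_atTop.eventually_ge_atTop (8 * (1 + Real.log (D + 1)) / (d * min δ₂ (1 - κ))),
    Real.tendsto_log_atTop.eventually_ge_atTop 1,
    eventually_gt_atTop (0 : ℝ)] with B g1 g2 g3 g4 g5 g5' g6 g7 g8 g9 g10
  obtain ⟨L, hL⟩ : ∃ L : ℝ, L = Real.log B := ⟨_, rfl⟩
  have hB : B = Real.exp L := by rw [hL, Real.exp_log g10]
  rw [← hL] at g1 g2 g3 g4 g5 g5' g6 g7 g8 g9 ⊢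
  obtain ⟨W, hW⟩ : ∃ W : ℝ, W = √(L / Real.log L) := ⟨_, rfl⟩
  have hWp : ph L = W := by rw [hW]; rfl
  have hW0 : 0 ≤ W := by rw [hW]; exact Real.sqrt_nonneg _
  rw [← hW] at g3 g4 g5 g5' g6 ⊢
  rw [Real.log_exp] at g1
  have hL1 : 0 < L := by linarith
  obtain ⟨ω, hω⟩ : ∃ ω : ℝ, ω = min δ₂ (1 - κ) := ⟨_, rfl⟩
  have hω0 : 0 < ω := by rw [hω]; exact lt_min hδ₂0 (by linarith)
  have hω1 : ω ≤ δ₂ := by rw [hω]; exact min_le_left _ _
  have hω2 : ω ≤ 1 - κ := by rw [hω]; exact min_le_right _ _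
  rw [← hω] at g4 g8
  have habs : ∀ a : ℝ, |a * W| = |a| * W := fun a => by rw [abs_mul, abs_of_nonneg hW0]
  rw [abs_of_nonneg (show 0 ≤ |τ + 1| + |σ - d * u - ε| by positivity)] at g4
  rw [abs_of_nonneg (show 0 ≤ d * (|u| + ε₁) by positivity)] at g5
  rw [abs_of_nonneg (show 0 ≤ |u| + ε₁ by positivity)] at g5'
  obtain ⟨M, hM⟩ : ∃ M : ℝ, M = d * (2 - κ) * L + (σ - d * u - ε) * W := ⟨_, rfl⟩
  rw [← hM]
  have hMn : -(|σ - d * u - ε| * W) ≤ (σ - d * u - ε) * W := by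
    rw [← habs]
    exact neg_abs_le _
  have h8 : 8 * (1 + Real.log (D + 1)) ≤ d * ω * L := by
    rw [div_le_iff₀ (by positivity)] at g8
    linarith
  have hdωL : d * ω * L ≤ d * δ₂ * L :=
    mul_le_mul_of_nonneg_right (mul_le_mul_of_nonneg_left hω1 hd.le) hL1.le
  have hlogD : 0 ≤ Real.log (D + 1) := Real.log_nonneg (by linarith)
  have four : (4 : ℝ) ≤ Real.exp 2 := by
    have h1 := Real.add_one_le_exp (1 : ℝ)
    have h2 : Real.exp 2 = Real.exp 1 * Real.exp 1 := by rw [← Real.exp_add]; norm_num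
    rw [h2]
    nlinarith
  obtain ⟨U, hU⟩ : ∃ U : ℝ, U = d * ((u + ε₁) * W) / 3 := ⟨_, rfl⟩
  have hUabs : |U| ≤ δ' * (d * L) := by
    rw [hU, abs_div, abs_mul, abs_of_pos hd, habs]
    have e1 : |u + ε₁| ≤ |u| + ε₁ := by
      have := abs_add_le u ε₁
      rwa [abs_of_pos hε₁0] at this
    have e2 : d * (|u + ε₁| * W) ≤ d * ((|u| + ε₁) * W) :=
      mul_le_mul_of_nonneg_left (mul_le_mul_of_nonneg_right e1 hW0) hd.le
    have e3 : |(3 : ℝ)| = 3 := abs_of_pos (by norm_num)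
    rw [e3]
    have e4 : 0 ≤ d * (|u + ε₁| * W) := by positivity
    linarith
  obtain ⟨F, hF, hFc⟩ := hlo (d * L) U (by
      rw [div_le_iff₀ hd] at g7
      linarith) hUabs
  -- the sets
  obtain ⟨A2, hA2⟩ : ∃ A2 : Set K,
      A2 = XQ z η (κ - δ₃) 0 (Real.exp ((1 - δ₂) * L)) := ⟨_, rfl⟩
  obtain ⟨A3, hA3⟩ : ∃ A3 : Set K,
      A3 = {x | x ≠ 0 ∧ x ≠ 1 ∧ Real.exp (hgt x) ≤ Real.exp (L / 2)} := ⟨_, rfl⟩
  have fA2 : A2.Finite := by rw [hA2]; exact f2 _
  have fA3 : A3.Finite := by rw [hA3]; exact hgt_finite _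
  have fXU := XU_finite z η κ c u B
  have hsub : (F : Set K) ⊆ XU z η κ c u B ∪ (A2 ∪ A3) := by
    intro x hx
    obtain ⟨o1, k1, k2, P, hP, k3⟩ := hF x (mem_coe.1 hx)
    have x0 : x ≠ 0 := by
      have := o1 0
      intro h
      apply this
      rw [h]
      show (0 : K) * 1 - 0 = 0
      ring
    have x1 : x ≠ 1 := by
      have := o1 2
      intro h
      apply this
      rw [h]
      show (1 : K) * 1 - 1 = 0
      ring
    obtain ⟨-, -, hall⟩ := hbase x x0 x1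
    obtain ⟨htr, hb⟩ := hall P hP
    have hh1 : hr (aff x) = d * hgt x := by rw [hr_eq, hdd]
    rw [hh1] at k1
    have k1' : hgt x ≤ L := le_of_mul_le_mul_left k1 hd
    have hnear : NearK z η x := fun w => hz3 w _ (k2 w)
    have hnn : nn x ≤ (3 - κ) * hgt x - 3 * |c| - (u + ε₁) * W := by
      have m1 : d * ∑ l, ncl (∅ : Set (Pr K)) (al3 K l) (pt x) ≤
          ∑ l : Fin 3, ((1 - κ / 3) * (d * hgt x) - d * |c| - U) := by
        rw [mul_sum]
        refine sum_le_sum fun l _ => ?_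
        have e1 := (hb l).2
        have e2 := k3 l
        rw [← hdd] at e1
        rw [hh1] at e2
        linarith
      rw [sum_ncl x0 x1] at m1
      simp only [Finset.sum_const, Finset.card_univ, Fintype.card_fin, nsmul_eq_mul] at m1
      push_cast at m1
      have m2 : d * nn x ≤ d * ((3 - κ) * hgt x - 3 * |c| - (u + ε₁) * W) := by
        unfold nn
        rw [hU] at m1
        linarith
      exact le_of_mul_le_mul_left m2 hd
    have hc1 := neg_abs_le c
    have hc2 := abs_nonneg c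
    by_cases q1 : (1 - δ₂) * L < hgt x
    · left
      refine ⟨x0, x1, ?_, hnear, ?_⟩
      · rw [hB]
        exact Real.exp_le_exp.2 k1'
      · have m4 : |u * (ph (hgt x) - W)| ≤ ε₁ * W := by
          obtain ⟨e1, e2⟩ := g2 (hgt x) q1.le k1'
          rw [hWp] at e1 e2
          rw [abs_mul]
          have e3 : |ph (hgt x) - W| ≤ δ₂ * W := by
            apply abs_le.2
            have : 0 ≤ δ₂ * W := by positivity
            constructor <;> linarith
          calc |u| * |ph (hgt x) - W| ≤ |u| * (δ₂ * W) :=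
                mul_le_mul_of_nonneg_left e3 (abs_nonneg u)
            _ = |u| * δ₂ * W := by ring
            _ ≤ ε₁ * W := mul_le_mul_of_nonneg_right hδ₂2 hW0
        have m5 := (abs_le.1 m4).2
        linarith
    · push Not at q1
      right
      by_cases q2 : hgt x ≤ L / 2
      · right
        rw [hA3]
        exact ⟨x0, x1, Real.exp_le_exp.2 q2⟩
      · push Not at q2
        left
        rw [hA2]
        refine ⟨x0, x1, Real.exp_le_exp.2 q1, hnear, ?_⟩
        have e1 : -((u + ε₁) * W) ≤ (|u| + ε₁) * W := by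
          have e2 : -(u + ε₁) ≤ |u| + ε₁ := by
            have := neg_abs_le u
            linarith
          have := mul_le_mul_of_nonneg_right e2 hW0
          linarith
        have e3 : δ₃ / 2 * L ≤ δ₃ * hgt x := by nlinarith
        linarith
  have hcard : (F.card : ℝ) ≤ (XU z η κ c u B).ncard + (A2.ncard + A3.ncard) := by
    have e1 := Set.ncard_le_ncard hsub (fXU.union (fA2.union fA3))
    rw [Set.ncard_coe_finset] at e1
    have e2 := e1.trans ((Set.ncard_union_le _ _).trans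
      (Nat.add_le_add_left (Set.ncard_union_le _ _) _))
    exact_mod_cast e2
  -- the main term
  have c1 : 4 * Real.exp M ≤ F.card := by
    have e0 : ∑ _l : Fin 3, √(8 * (κ / 3) * (d * L) / Real.log (d * L)) =
        √(24 * κ) * √(d * L / Real.log (d * L)) := by
      have e1 : 8 * (κ / 3) * (d * L) / Real.log (d * L) =
          (24 * κ) / 3 ^ 2 * (d * L / Real.log (d * L)) := by ring
      rw [Finset.sum_const, Finset.card_univ, Fintype.card_fin, nsmul_eq_mul, e1,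
        Real.sqrt_mul (by positivity), Real.sqrt_div (by positivity), Real.sqrt_sq (by norm_num)]
      push_cast
      ring
    rw [hsum3, e0] at hFc
    have e1 : √(24 * κ) * √d = σ := by rw [hσ, ← Real.sqrt_mul (by positivity)]
    have e2 : -((1 - ε₀) * √(24 * κ)) * √d = -((1 - ε₀) * σ) := by
      rw [← e1]; ring
    rw [e2] at g3
    have e3 : d * ε₁ = ε / 8 := by rw [hε₁]; field_simp
    have e6 : 4 / ε * 2 * ε ≤ W * ε := mul_le_mul_of_nonneg_right g6 hε.le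
    have e7 : 4 / ε * 2 * ε = 8 := by field_simp; norm_num
    rw [e7] at e6
    have e8 : ((3 : ℕ) : ℝ) * U = d * u * W + ε / 8 * W := by
      rw [hU, ← e3]; push_cast; ring
    rw [e8] at hFc
    refine le_trans ?_ hFc
    have e9 : ε₀ * σ * W ≤ ε / 8 * W := mul_le_mul_of_nonneg_right hε₀2 hW0
    calc 4 * Real.exp M ≤ Real.exp 2 * Real.exp M :=
          mul_le_mul_of_nonneg_right four (Real.exp_pos _).le
      _ ≤ _ := by
          rw [← Real.exp_add]
          apply Real.exp_le_exp.2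
          rw [hM]
          linarith
  -- the second set
  have c2 : 4 * (A2.ncard : ℝ) ≤ Real.exp M := by
    have k1 := g1.2
    rw [← hA2] at k1
    have e1 : (τ + 1) * √((1 - δ₂) * L / Real.log ((1 - δ₂) * L)) ≤ |τ + 1| * W := by
      have e2 := (g2 ((1 - δ₂) * L) le_rfl (by nlinarith)).2
      rw [hWp] at e2
      have e3 : √((1 - δ₂) * L / Real.log ((1 - δ₂) * L)) = ph ((1 - δ₂) * L) := rfl
      rw [e3]
      exact mul_le_mul (le_abs_self _) e2 (ph_nonneg _) (abs_nonneg _)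
    have e4 : d * (2 - (κ - δ₃)) * ((1 - δ₂) * L) ≤ d * (2 - κ) * L - 3 / 4 * (d * δ₂ * L) := by
      have e5 : (2 - (κ - δ₃)) * (1 - δ₂) ≤ 2 - κ - 3 / 4 * δ₂ := by nlinarith
      have e6 : 0 < d * L := by positivity
      have e7 := mul_le_mul_of_nonneg_right e5 e6.le
      linarith
    calc 4 * (A2.ncard : ℝ) ≤ Real.exp 2 * Real.exp (d * (2 - (κ - δ₃)) * ((1 - δ₂) * L) +
          (τ + 1) * √((1 - δ₂) * L / Real.log ((1 - δ₂) * L))) :=
          mul_le_mul four k1 (Nat.cast_nonneg _) (Real.exp_pos _).le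
      _ ≤ _ := by
          rw [← Real.exp_add]
          apply Real.exp_le_exp.2
          rw [hM]
          linarith
  -- the third set
  have c3 : 4 * (A3.ncard : ℝ) ≤ Real.exp M := by
    obtain ⟨F', hF'⟩ : ∃ F' : Finset K, F' = fA3.toFinset := ⟨_, rfl⟩
    have hFc' : A3.ncard = F'.card := by rw [hF', Set.ncard_eq_toFinset_card _ fA3]
    rw [hFc']
    have k1 := htriv (L / 2) F' (by positivity) (by
      intro x hx
      rw [hF', Set.Finite.mem_toFinset, hA3] at hx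
      exact ⟨hx.1, hx.2.1, Real.exp_le_exp.1 hx.2.2⟩)
    have e1 : D ≤ Real.exp (Real.log (D + 1)) := by
      rw [Real.exp_log (by linarith)]
      linarith
    have e2 : d * (1 + ω) * L ≤ d * (2 - κ) * L :=
      mul_le_mul_of_nonneg_right (mul_le_mul_of_nonneg_left (by linarith) hd.le) hL1.le
    have e4 : 0 ≤ |τ + 1| * W := by positivity
    calc 4 * (F'.card : ℝ) ≤ Real.exp 2 * (D * Real.exp (2 * (d * (L / 2)))) :=
          mul_le_mul four k1 (Nat.cast_nonneg _) (Real.exp_pos _).le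
      _ ≤ Real.exp 2 * (Real.exp (Real.log (D + 1)) * Real.exp (2 * (d * (L / 2)))) := by
          apply mul_le_mul_of_nonneg_left _ (Real.exp_pos _).le
          exact mul_le_mul_of_nonneg_right e1 (Real.exp_pos _).le
      _ ≤ _ := by
          rw [← Real.exp_add, ← Real.exp_add]
          apply Real.exp_le_exp.2
          rw [hM]
          linarith
  have := Real.exp_pos M
  linarith

/-- the final theorem -/
theorem sh_limit (z : InfinitePlace K → ℂ) (η κ c u : ℝ) (hz : ∀ w, w.IsReal → (z w).im = 0)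
    (hη : 0 < η) (hκ0 : 0 < κ) (hκ1 : κ < 1) :
    (∀ B : ℝ, (XU z η κ c u B).Finite) ∧
    Tendsto (fun B : ℝ => (Real.log ((XU z η κ c u B).ncard : ℝ) -
        finrank ℚ K * (2 - κ) * Real.log B) /
      √(Real.log B / Real.log (Real.log B))) atTop
      (𝓝 (√(24 * κ * finrank ℚ K) - finrank ℚ K * u)) :=
  ⟨XU_finite z η κ c u, lim_of fun ε hε =>
    (low_sh z η κ c u hz hη hκ0 hκ1 hε).and (up_sh z η κ c u hz hη hκ0 hκ1 hε)⟩

end Pool.Agent.N906.LD
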