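import Pool.Agent.N906.LD.ShF
import Pool.Agent.N906.LD.LoE

/-!
# Project LD: the second order law, uniformly in the exponent
-/

set_option autoImplicit false
set_option linter.unusedSectionVars false
set_option linter.unusedVariables false
set_option maxHeartbeats 4000000

namespace Pool.Agent.N906.LD

open NumberField IsDedekindDomain Finset Filter Topology Module Pool.Agent.H691R3 Pool.Agent.W223.AK
open Pool.Agent.N906.KG Pool.Agent.N170.KG Pool.Agent.N906.QP.Aff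

theorem loje_all (K : Type) [Field K] [NumberField K] : S_LOJE K :=
  loje K (basq_all K) (cellq_all K)
    (Pool.Agent.N717.QP.lowd K (cellq_all K) (Pool.Agent.N34.QP.dscg K)) (winj_all K)

variable {K : Type} [Field K] [NumberField K]

theorem low_uni (z : InfinitePlace K → ℂ) (η : ℝ) (hz : ∀ w, w.IsReal → (z w).im = 0)
    (hη : 0 < η) {a b c₀ : ℝ} (ha : 0 < a) (hab : a ≤ b) (hb : b < 1) (hc₀ : 0 ≤ c₀) {ε : ℝ}
    (hε : 0 < ε) :
    ∀ᶠ B : ℝ in atTop, ∀ κ c : ℝ, a ≤ κ → κ ≤ b → |c| ≤ c₀ →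
      Real.exp (finrank ℚ K * (2 - κ) * Real.log B +
        (√(24 * κ * finrank ℚ K) - ε) * √(Real.log B / Real.log (Real.log B))) ≤
      ((XQ z η κ c B).ncard : ℝ) := by
  classical
  have hd : (0 : ℝ) < finrank ℚ K := fin_pos
  obtain ⟨d, hdd⟩ : ∃ d : ℝ, d = finrank ℚ K := ⟨_, rfl⟩
  rw [← hdd] at hd
  simp only [← hdd]
  obtain ⟨S, hA, hG, hbase⟩ := base K
  have hS0 : 0 ≤ ∑ v ∈ S, Real.log (Nv v) := sum_nonneg fun v _ => (log_Nv_pos v).le
  have hsd : 0 < √d := Real.sqrt_pos.2 hd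
  obtain ⟨ε₀, hε₀⟩ : ∃ ε₀ : ℝ, ε₀ = min (1 / 2) (ε / (20 * √d + 20)) := ⟨_, rfl⟩
  have hε₀0 : 0 < ε₀ := by rw [hε₀]; exact lt_min (by norm_num) (by positivity)
  have hε₀1 : ε₀ < 1 := by rw [hε₀]; exact lt_of_le_of_lt (min_le_left _ _) (by norm_num)
  have hε₀2 : ε₀ * (5 * √d) ≤ ε / 4 := by
    have h1 : ε₀ ≤ ε / (20 * √d + 20) := by rw [hε₀]; exact min_le_right _ _
    rw [le_div_iff₀ (by positivity)] at h1
    nlinarith
  obtain ⟨z', hz1, hz2, hz3⟩ := Pool.Agent.N360.QP.move z hη hz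
  -- the grid
  obtain ⟨δ, hδ⟩ : ∃ δ : ℝ, δ = min (min (min (ε₀ / 4) ((1 - b) / 2) * (a / 6)) ((1 - b) / 12))
      (min (a / 2) ((ε / (20 * √d)) ^ 2)) := ⟨_, rfl⟩
  have hδ0 : 0 < δ := by
    rw [hδ]
    have h1 : 0 < min (ε₀ / 4) ((1 - b) / 2) := lt_min (by positivity) (by linarith)
    exact lt_min (lt_min (by positivity) (by linarith)) (lt_min (by positivity) (by positivity))
  have hδ1 : δ ≤ min (min (ε₀ / 4) ((1 - b) / 2) * (a / 6)) ((1 - b) / 12) := by
    rw [hδ]; exact min_le_left _ _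
  have hδ2 : δ ≤ a / 2 := by rw [hδ]; exact (min_le_right _ _).trans (min_le_left _ _)
  have hδ3 : δ ≤ (ε / (20 * √d)) ^ 2 := by
    rw [hδ]; exact (min_le_right _ _).trans (min_le_right _ _)
  obtain ⟨kp, hkp⟩ : ∃ kp : ℕ → ℝ, kp = fun i : ℕ => min (a / 2 + (i : ℝ) * δ) b := ⟨_, rfl⟩
  have hkp1 : ∀ i, a / 2 ≤ kp i := fun i => by
    rw [hkp]
    refine le_min ?_ (by linarith)
    have : 0 ≤ (i : ℝ) * δ := by positivity
    linarith
  have hkp2 : ∀ i, kp i ≤ b := fun i => by rw [hkp]; exact min_le_right _ _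
  obtain ⟨N, hN⟩ : ∃ N : ℕ, N = ⌊(b - a / 2) / δ⌋₊ := ⟨_, rfl⟩
  have hsum3 : ∀ i, ∑ _l : Fin 3, kp i / 3 = kp i := fun i => by simp; ring
  have hlo : ∀ i, ∃ X₀ : ℝ, 1 < X₀ ∧ ∀ X U : ℝ, X₀ ≤ X → |U| ≤ δ * X → ∃ F : Finset K,
      (∀ x ∈ F, Of (pr (al3 K)) x ∧ hr (aff x) ≤ X ∧
        (∀ w : InfinitePlace K, ‖w.embedding x - z' w‖ < η / 2) ∧
        ∃ P, IsP S (pr (al3 K)) x P ∧
          ∀ l, rl (P l) + (∑ v ∈ S, Real.log (Nv v) + d * c₀) + U ≤ (1 - kp i / 3) * hr (aff x)) ∧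
      Real.exp ((2 - kp i) * X - (3 : ℕ) * U +
        (1 - ε₀) * ∑ _l : Fin 3, √(8 * (kp i / 3) * X / Real.log X)) ≤ F.card := by
    intro i
    have h1 := hkp1 i
    have h2 := hkp2 i
    obtain ⟨X₀, hX₀, h⟩ := loje_all K 3 (pr (al3 K)) S (fun _ => kp i / 3) ε₀
      (∑ v ∈ S, Real.log (Nv v) + d * c₀) z' (η / 2) (by norm_num) hA hG
      (fun _ => by linarith) (by rw [hsum3]; linarith) hε₀0 hε₀1 (by positivity) hz1 hz2
      (by positivity) (a / 6) (by positivity) (fun _ => by linarith)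
    refine ⟨X₀, hX₀, fun X U hX hU => ?_⟩
    rw [hsum3] at h
    refine h X U hX (hU.trans (mul_le_mul_of_nonneg_right (hδ1.trans ?_) (by linarith)))
    have e1 : min (ε₀ / 4) ((1 - b) / 2) ≤ min (ε₀ / 4) ((1 - kp i) / 2) :=
      min_le_min le_rfl (by linarith)
    have e2 : (1 - b) / 12 ≤ (1 - kp i) / (4 * ((3 : ℕ) : ℝ)) := by
      push_cast
      linarith
    exact min_le_min (mul_le_mul_of_nonneg_right e1 (by positivity)) e2
  choose X₀ hX₀ hlo using hlo
  have evi : ∀ᶠ L : ℝ in atTop, ∀ i ∈ range (N + 1), X₀ i / d ≤ L :=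
    (Filter.eventually_all_finset _).2 fun i _ => eventually_ge_atTop _
  have ev3 := ratio hd (-(1 : ℝ)) (show 0 < ε / 20 by positivity)
  filter_upwards [Real.tendsto_log_atTop.eventually evi, Real.tendsto_log_atTop.eventually ev3,
    Real.tendsto_log_atTop.eventually_ge_atTop 1,
    eventually_gt_atTop (0 : ℝ)] with B g1 g2 g3 g4 κ c hκa hκb hc
  obtain ⟨L, hL⟩ : ∃ L : ℝ, L = Real.log B := ⟨_, rfl⟩
  have hB : B = Real.exp L := by rw [hL, Real.exp_log g4]
  rw [← hL] at g1 g2 g3 ⊢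
  obtain ⟨W, hW⟩ : ∃ W : ℝ, W = √(L / Real.log L) := ⟨_, rfl⟩
  have hW0 : 0 ≤ W := by rw [hW]; exact Real.sqrt_nonneg _
  rw [← hW] at g2 ⊢
  -- the grid point
  obtain ⟨i, hi⟩ : ∃ i : ℕ, i = ⌊(κ - a / 2) / δ⌋₊ := ⟨_, rfl⟩
  have h0 : 0 ≤ (κ - a / 2) / δ := div_nonneg (by linarith) hδ0.le
  have hi1 : (i : ℝ) * δ ≤ κ - a / 2 := by
    have := Nat.floor_le h0
    rw [← hi, le_div_iff₀ hδ0] at this
    exact this
  have hi2 : κ - a / 2 ≤ (i : ℝ) * δ + δ := by
    have := (Nat.lt_floor_add_one ((κ - a / 2) / δ)).le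
    rw [← hi, div_le_iff₀ hδ0] at this
    linarith
  have hiN : i ∈ range (N + 1) := by
    rw [mem_range, hN, hi]
    apply Nat.lt_succ_of_le
    apply Nat.floor_le_floor
    exact div_le_div_of_nonneg_right (by linarith) hδ0.le
  have hki : kp i = a / 2 + i * δ := by
    rw [hkp]
    exact min_eq_left (by linarith)
  have hk1 : kp i ≤ κ := by rw [hki]; linarith
  have hk2 : κ - kp i ≤ δ := by rw [hki]; linarith
  have hk0 : 0 < kp i := by have := hkp1 i; linarith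
  obtain ⟨U, hU⟩ : ∃ U : ℝ, U = (κ - kp i) * (d * L) / 3 := ⟨_, rfl⟩
  have hdL : 0 < d * L := by positivity
  have hU0 : 0 ≤ U := by rw [hU]; exact div_nonneg (mul_nonneg (by linarith) hdL.le) (by norm_num)
  have hU1 : |U| ≤ δ * (d * L) := by
    rw [abs_of_nonneg hU0, hU]
    have h5 : (κ - kp i) * (d * L) ≤ δ * (d * L) := mul_le_mul_of_nonneg_right hk2 hdL.le
    have h6 : 0 ≤ δ * (d * L) := by positivity
    linarith
  obtain ⟨F, hF, hFc⟩ := hlo i (d * L) U (by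
    have := g1 i hiN
    rw [div_le_iff₀ hd] at this
    linarith) hU1
  have fXQ := (xq_limit z η κ c hz hη (by linarith) (by linarith)).1 B
  have hsub : (F : Set K) ⊆ XQ z η κ c B := by
    intro x hx
    obtain ⟨o1, k1, k2, P, hP, k3⟩ := hF x (mem_coe.1 hx)
    have x0 : x ≠ 0 := by
      have := o1 0
      intro h
      apply this
      rw [h]
      show (0 : K) * 1 - 0 = 0
      ring
    have x1 : x ≠ 1 := by
      have := o1 2
      intro h
      apply this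
      rw [h]
      show (1 : K) * 1 - 1 = 0
      ring
    obtain ⟨-, -, hall⟩ := hbase x x0 x1
    obtain ⟨htr, hb'⟩ := hall P hP
    have hh1 : hr (aff x) = d * hgt x := by rw [hr_eq, hdd]
    rw [hh1] at k1
    have k1' : hgt x ≤ L := le_of_mul_le_mul_left k1 hd
    have hUx : (κ - kp i) * (d * hgt x) / 3 ≤ U := by
      rw [hU]
      apply div_le_div_of_nonneg_right _ (by norm_num)
      exact mul_le_mul_of_nonneg_left k1 (by linarith)
    refine ⟨x0, x1, ?_, fun w => hz3 w _ (k2 w), ?_⟩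
    · rw [hB]
      exact Real.exp_le_exp.2 k1'
    · have m1 : d * ∑ l, ncl (∅ : Set (Pr K)) (al3 K l) (pt x) ≤
          ∑ l : Fin 3, ((1 - kp i / 3) * (d * hgt x) - d * c₀ - U) := by
        rw [mul_sum]
        refine sum_le_sum fun l _ => ?_
        have e1 := (hb' l).2
        have e2 := k3 l
        rw [← hdd] at e1
        rw [hh1] at e2
        linarith
      rw [sum_ncl x0 x1] at m1
      simp only [Finset.sum_const, Finset.card_univ, Fintype.card_fin, nsmul_eq_mul] at m1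
      push_cast at m1
      have hcc := (abs_le.1 hc).1
      have e3 : d * (-c₀) ≤ d * c := mul_le_mul_of_nonneg_left hcc hd.le
      have e4 : 0 ≤ d * c₀ := by positivity
      have m2 : d * nn x ≤ d * ((3 - κ) * hgt x + c) := by
        unfold nn
        linarith
      exact le_of_mul_le_mul_left m2 hd
  have hcard : (F.card : ℝ) ≤ (XQ z η κ c B).ncard := by
    have e1 := Set.ncard_le_ncard hsub fXQ
    rw [Set.ncard_coe_finset] at e1
    exact_mod_cast e1
  refine le_trans ?_ hcard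
  refine le_trans ?_ hFc
  apply Real.exp_le_exp.2
  have e0 : ∑ _l : Fin 3, √(8 * (kp i / 3) * (d * L) / Real.log (d * L)) =
      √(24 * kp i) * √(d * L / Real.log (d * L)) := by
    have e1 : 8 * (kp i / 3) * (d * L) / Real.log (d * L) =
        (24 * kp i) / 3 ^ 2 * (d * L / Real.log (d * L)) := by ring
    rw [Finset.sum_const, Finset.card_univ, Fintype.card_fin, nsmul_eq_mul, e1,
      Real.sqrt_mul (by positivity), Real.sqrt_div (by positivity), Real.sqrt_sq (by norm_num)]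
    push_cast
    ring
  rw [e0]
  obtain ⟨σ, hσ⟩ : ∃ σ : ℝ, σ = √(24 * kp i) := ⟨_, rfl⟩
  rw [← hσ]
  have hσ0 : 0 ≤ σ := by rw [hσ]; exact Real.sqrt_nonneg _
  have hσ5 : σ ≤ 5 := by
    rw [hσ, Real.sqrt_le_left (by norm_num)]
    have := hkp2 i
    linarith
  -- comparison of the constants
  have e1 : √(24 * κ * d) ≤ σ * √d + ε / 4 := by
    have h1 : √(24 * κ) ≤ σ + 5 * √δ := by
      rw [hσ]
      have h2 : 24 * κ ≤ (√(24 * kp i) + 5 * √δ) ^ 2 := by
        have h3 := Real.sq_sqrt (show 0 ≤ 24 * kp i by positivity)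
        have h4 := Real.sq_sqrt hδ0.le
        have h5 : 0 ≤ √(24 * kp i) * √δ := by positivity
        nlinarith
      exact Real.sqrt_le_iff.2 ⟨by positivity, h2⟩
    have h2 : √δ ≤ ε / (20 * √d) := Real.sqrt_le_iff.2 ⟨by positivity, hδ3⟩
    rw [le_div_iff₀ (by positivity)] at h2
    rw [Real.sqrt_mul (by linarith)]
    calc √(24 * κ) * √d ≤ (σ + 5 * √δ) * √d := mul_le_mul_of_nonneg_right h1 hsd.le
      _ ≤ _ := by linarith
  have e2 : √d * W - ε / 20 * W ≤ √(d * L / Real.log (d * L)) := by linarith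
  have e3 : (1 - ε₀) * (σ * (√d * W - ε / 20 * W)) ≤
      (1 - ε₀) * (σ * √(d * L / Real.log (d * L))) :=
    mul_le_mul_of_nonneg_left (mul_le_mul_of_nonneg_left e2 hσ0) (by linarith)
  have e4 : ε₀ * (σ * √d) * W ≤ ε / 4 * W := by
    apply mul_le_mul_of_nonneg_right _ hW0
    refine le_trans ?_ hε₀2
    exact mul_le_mul_of_nonneg_left (mul_le_mul_of_nonneg_right hσ5 hsd.le) hε₀0.le
  have e5 : (1 - ε₀) * (σ * (ε / 20 * W)) ≤ ε / 4 * W := by
    have h1 : (1 - ε₀) * σ ≤ 1 * 5 := mul_le_mul (by linarith) hσ5 hσ0 (by norm_num)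
    have h2 : (1 - ε₀) * (σ * (ε / 20 * W)) = ((1 - ε₀) * σ) * (ε / 20 * W) := by ring
    rw [h2]
    calc ((1 - ε₀) * σ) * (ε / 20 * W) ≤ 1 * 5 * (ε / 20 * W) :=
          mul_le_mul_of_nonneg_right h1 (by positivity)
      _ = _ := by ring
  have e6 : (√(24 * κ * d) - ε) * W ≤ (σ * √d - 3 / 4 * ε) * W :=
    mul_le_mul_of_nonneg_right (by linarith) hW0
  have e7 : ((3 : ℕ) : ℝ) * U = (κ - kp i) * (d * L) := by
    rw [hU]; push_cast; ring
  rw [e7]
  have e8 : 0 ≤ ε * W := by positivity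
  linarith

theorem up_uni (z : InfinitePlace K → ℂ) (η : ℝ) (hz : ∀ w, w.IsReal → (z w).im = 0)
    (hη : 0 < η) {a b c₀ : ℝ} (ha : 0 < a) (hab : a ≤ b) (hb : b < 1) (hc₀ : 0 ≤ c₀) {ε : ℝ}
    (hε : 0 < ε) :
    ∀ᶠ B : ℝ in atTop, ∀ κ c : ℝ, a ≤ κ → κ ≤ b → |c| ≤ c₀ →
      ((XQ z η κ c B).ncard : ℝ) ≤ Real.exp (finrank ℚ K * (2 - κ) * Real.log B +
        (√(24 * κ * finrank ℚ K) + ε) * √(Real.log B / Real.log (Real.log B))) := by
  classical
  have hd : (0 : ℝ) < finrank ℚ K := fin_pos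
  obtain ⟨d, hdd⟩ : ∃ d : ℝ, d = finrank ℚ K := ⟨_, rfl⟩
  rw [← hdd] at hd
  simp only [← hdd]
  obtain ⟨S, hA, hG, hbase⟩ := base K
  have hsd : 0 < √d := Real.sqrt_pos.2 hd
  obtain ⟨δ, hδ⟩ : ∃ δ : ℝ, δ = min (a / 2) (1 - b) := ⟨_, rfl⟩
  have hδ0 : 0 < δ := by rw [hδ]; exact lt_min (by positivity) (by linarith)
  have hδ1 : δ ≤ a / 2 := by rw [hδ]; exact min_le_left _ _
  have hδ2 : δ ≤ 1 - b := by rw [hδ]; exact min_le_right _ _
  obtain ⟨ε₁, hε₁⟩ : ∃ ε₁ : ℝ, ε₁ = min 1 (ε / (40 * √d)) := ⟨_, rfl⟩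
  have hε₁0 : 0 < ε₁ := by rw [hε₁]; exact lt_min one_pos (by positivity)
  have hε₁1 : ε₁ ≤ 1 := by rw [hε₁]; exact min_le_left _ _
  have hε₁2 : ε₁ * √d ≤ ε / 40 := by
    have h1 : ε₁ ≤ ε / (40 * √d) := by rw [hε₁]; exact min_le_right _ _
    rw [le_div_iff₀ (by positivity)] at h1
    linarith
  obtain ⟨ε₂, hε₂⟩ : ∃ ε₂ : ℝ, ε₂ = ε / 80 := ⟨_, rfl⟩
  have hε₂0 : 0 < ε₂ := by rw [hε₂]; positivity
  obtain ⟨ε₃, hε₃⟩ : ∃ ε₃ : ℝ, ε₃ = ε / (24 * (√d + ε₂)) := ⟨_, rfl⟩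
  have hε₃0 : 0 < ε₃ := by rw [hε₃]; positivity
  obtain ⟨X₁, hX₁, hupu⟩ := upu_three K (pr (al3 K)) S δ ε₁ hA hG hδ0 hε₁0
  obtain ⟨D, hD, htriv⟩ := triv K
  simp only [← hdd] at htriv
  obtain ⟨E, hE⟩ : ∃ E : ℝ, E = Real.exp (1 + d * c₀) + 1 := ⟨_, rfl⟩
  have hE0 : 0 < E := by rw [hE]; positivity
  have t1 : Tendsto (fun L : ℝ => d * L) atTop atTop := tendsto_id.const_mul_atTop hd
  have ev1 := t1.eventually (ph_near (δ := 3 / 4) (by norm_num) (by norm_num))
  have ev2 := ratio hd (1 : ℝ) hε₂0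
  have ev3 := t1.eventually (Pool.Agent.N575.QP.poly hε₃0 hE0 1)
  have ev4 := W_large (2 / ε)
  have ev5 : ∀ᶠ L : ℝ in atTop, 2 * D ≤ Real.exp (d / 2 * L) := by
    have := Real.tendsto_exp_atTop.comp (tendsto_id.const_mul_atTop (show 0 < d / 2 by positivity))
    exact this.eventually_ge_atTop _
  filter_upwards [Real.tendsto_log_atTop.eventually ev1, Real.tendsto_log_atTop.eventually ev2,
    Real.tendsto_log_atTop.eventually ev3, Real.tendsto_log_atTop.eventually ev4,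
    Real.tendsto_log_atTop.eventually ev5,
    Real.tendsto_log_atTop.eventually_ge_atTop (4 * (X₁ + 2 * (b + d * c₀) / a + 1) / d),
    Real.tendsto_log_atTop.eventually_ge_atTop 1,
    eventually_gt_atTop (0 : ℝ)] with B g1 g2 g3 g4 g5 g6 g7 g8 κ c hκa hκb hc
  obtain ⟨L, hL⟩ : ∃ L : ℝ, L = Real.log B := ⟨_, rfl⟩
  have hB : B = Real.exp L := by rw [hL, Real.exp_log g8]
  rw [← hL] at g1 g2 g3 g4 g5 g6 g7 ⊢
  obtain ⟨W, hW⟩ : ∃ W : ℝ, W = √(L / Real.log L) := ⟨_, rfl⟩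
  have hW0 : 0 ≤ W := by rw [hW]; exact Real.sqrt_nonneg _
  rw [← hW] at g2 g4 ⊢
  obtain ⟨X, hX⟩ : ∃ X : ℝ, X = d * L := ⟨_, rfl⟩
  rw [← hX] at g1 g2 g3
  have hX0 : 0 < X := by rw [hX]; positivity
  have hXbig : 4 * (X₁ + 2 * (b + d * c₀) / a + 1) ≤ X := by
    rw [div_le_iff₀ hd] at g6
    rw [hX]
    linarith
  have hb0 : 0 ≤ 2 * (b + d * c₀) / a := by
    have : 0 ≤ b + d * c₀ := by
      have : 0 ≤ d * c₀ := by positivity
      linarith
    positivity
  obtain ⟨Q, hQ⟩ : ∃ Q : ℝ, Q = ph X := ⟨_, rfl⟩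
  have hQ0 : 0 ≤ Q := by rw [hQ]; exact ph_nonneg _
  have hQW : Q ≤ (√d + ε₂) * W := by
    have h1 : √(X / Real.log X) = Q := by rw [hQ]; rfl
    rw [h1, one_mul, one_mul] at g2
    exact g2
  obtain ⟨σ, hσ⟩ : ∃ σ : ℝ, σ = √(24 * κ) := ⟨_, rfl⟩
  have hσ0 : 0 ≤ σ := by rw [hσ]; exact Real.sqrt_nonneg _
  have hσ5 : σ ≤ 5 := by
    rw [hσ, Real.sqrt_le_left (by norm_num)]
    linarith
  have hκ0 : 0 < κ := by linarith
  obtain ⟨M, hM⟩ : ∃ M : ℝ, M = d * (2 - κ) * L + (√(24 * κ * d) + ε) * W := ⟨_, rfl⟩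
  rw [← hM]
  have hfin := (xq_limit z η κ c hz hη (by linarith) (by linarith)).1 B
  obtain ⟨F, hF⟩ : ∃ F : Finset K, F = hfin.toFinset := ⟨_, rfl⟩
  have hFc : (XQ z η κ c B).ncard = F.card := by rw [hF, Set.ncard_eq_toFinset_card _ hfin]
  have hFm : ∀ x ∈ F, x ∈ XQ z η κ c B := fun x hx => by
    rw [hF, Set.Finite.mem_toFinset] at hx
    exact hx
  rw [hFc]
  have hh1 : ∀ x : K, hr (aff x) = d * hgt x := fun x => by rw [hr_eq, hdd]
  have hh2 : ∀ x ∈ F, hgt x ≤ L := fun x hx => by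
    have := (hFm x hx).2.2.1
    rw [hB] at this
    exact Real.exp_le_exp.1 this
  -- the two parts
  obtain ⟨F₀, hF₀⟩ : ∃ F₀ : Finset K, F₀ = {x ∈ F | hr (aff x) ≤ X / 4} := ⟨_, rfl⟩
  obtain ⟨F₁, hF₁⟩ : ∃ F₁ : Finset K, F₁ = {x ∈ F | ¬ hr (aff x) ≤ X / 4} := ⟨_, rfl⟩
  have hsplit : (F.card : ℝ) = F₀.card + F₁.card := by
    rw [hF₀, hF₁]
    exact_mod_cast (Finset.card_filter_add_card_filter_not
      (s := F) (fun x => hr (aff x) ≤ X / 4)).symm
  have c0 : 2 * (F₀.card : ℝ) ≤ Real.exp M := by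
    have k1 := htriv (L / 4) F₀ (by linarith) (by
      intro x hx
      rw [hF₀, mem_filter, hh1, hX] at hx
      obtain ⟨x0, x1, -⟩ := hFm x hx.1
      refine ⟨x0, x1, ?_⟩
      have h2 : d * hgt x ≤ d * (L / 4) := by linarith [hx.2]
      exact le_of_mul_le_mul_left h2 hd)
    calc 2 * (F₀.card : ℝ) ≤ 2 * (D * Real.exp (2 * (d * (L / 4)))) := by linarith
      _ = 2 * D * Real.exp (d / 2 * L) := by
          rw [← mul_assoc]
          congr 2
          ring
      _ ≤ Real.exp (d / 2 * L) * Real.exp (d / 2 * L) :=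
          mul_le_mul_of_nonneg_right g5 (Real.exp_pos _).le
      _ ≤ _ := by
          rw [← Real.exp_add]
          apply Real.exp_le_exp.2
          rw [hM]
          have e1 : d * 1 * L ≤ d * (2 - κ) * L :=
            mul_le_mul_of_nonneg_right (mul_le_mul_of_nonneg_left (by linarith) hd.le) (by linarith)
          have e2 : 0 ≤ (√(24 * κ * d) + ε) * W := by positivity
          linarith
  have c1 : (F₁.card : ℝ) ≤ (X + 1) * Real.exp ((2 - κ) * X + (1 + d * c₀) +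
      (1 + ε₁) * (σ * Q)) := by
    rw [card_eq_sum_card_fiberwise (f := fun x => ⌊X - hr (aff x)⌋₊)
      (t := range (⌊X⌋₊ + 1)) (by
      intro x hx
      show ⌊X - hr (aff x)⌋₊ ∈ range (⌊X⌋₊ + 1)
      rw [mem_range]
      apply Nat.lt_succ_of_le
      apply Nat.floor_le_floor
      have := hr_aff_nonneg x
      linarith)]
    push_cast
    have hfib : ∀ j ∈ range (⌊X⌋₊ + 1),
        ((#{x ∈ F₁ | ⌊X - hr (aff x)⌋₊ = j} : ℕ) : ℝ) ≤
        Real.exp ((2 - κ) * X + (1 + d * c₀) + (1 + ε₁) * (σ * Q)) := by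
      intro j hj
      obtain ⟨G, hGd⟩ : ∃ G : Finset K, G = {x ∈ F₁ | ⌊X - hr (aff x)⌋₊ = j} := ⟨_, rfl⟩
      rw [← hGd]
      rcases G.eq_empty_or_nonempty with hGe | ⟨x₀, hx₀⟩
      · rw [hGe, card_empty]
        push_cast
        positivity
      obtain ⟨m, hm⟩ : ∃ m : ℝ, m = X - j := ⟨_, rfl⟩
      have hGx : ∀ x ∈ G, x ∈ F ∧ X / 4 < hr (aff x) ∧ m - 1 < hr (aff x) ∧ hr (aff x) ≤ m := by
        intro x hx
        rw [hGd, mem_filter, hF₁, mem_filter] at hx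
        obtain ⟨⟨h1, h2⟩, h3⟩ := hx
        push Not at h2
        have h4 : hr (aff x) ≤ X := by
          rw [hh1, hX]
          exact mul_le_mul_of_nonneg_left (hh2 x h1) hd.le
        have h5 := Nat.floor_le (show 0 ≤ X - hr (aff x) by linarith)
        have h6 := Nat.lt_floor_add_one (X - hr (aff x))
        rw [h3] at h5 h6
        refine ⟨h1, h2, ?_, ?_⟩
        · rw [hm]; linarith
        · rw [hm]; linarith
      obtain ⟨y1, y2, y3, y4⟩ := hGx x₀ hx₀
      have hmX : m ≤ X := by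
        rw [hm]
        have : (0 : ℝ) ≤ j := Nat.cast_nonneg _
        linarith
      have hm4 : X / 4 ≤ m := by linarith
      have hm1 : X₁ + 2 * (b + d * c₀) / a + 1 ≤ m := by linarith
      have hm0 : 0 < m := by linarith
      have hma : b + d * c₀ ≤ a / 2 * m := by
        have h1 : 2 * (b + d * c₀) / a ≤ m := by linarith
        rw [div_le_iff₀ ha] at h1
        linarith
      have hκm : a * m ≤ κ * m := mul_le_mul_of_nonneg_right hκa hm0.le
      have hκm' : κ * m ≤ b * m := mul_le_mul_of_nonneg_right hκb hm0.le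
      have hδm1 : δ * m ≤ a / 2 * m := mul_le_mul_of_nonneg_right hδ1 hm0.le
      have hδm2 : δ * m ≤ (1 - b) * m := mul_le_mul_of_nonneg_right hδ2 hm0.le
      have hdc : 0 ≤ d * c₀ := by positivity
      have k1 := hupu m (κ * (m - 1) - d * c₀) G (by linarith) (by linarith) (by
        linarith) (by
        intro x hx
        obtain ⟨h1, -, h3, h4⟩ := hGx x hx
        obtain ⟨x0, x1, x2, -, x3⟩ := hFm x h1
        obtain ⟨o1, ⟨P, hP⟩, hall⟩ := hbase x x0 x1
        obtain ⟨htr, hb'⟩ := hall P hP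
        refine ⟨o1, h3, h4, P, hP, ?_⟩
        rw [htr]
        have m1 : ∑ l, rl (P l) ≤
            d * ∑ l, ncl (∅ : Set (Pr K)) (al3 K l) (pt x) := by
          rw [mul_sum]
          refine sum_le_sum fun l _ => ?_
          rw [hdd]
          exact (hb' l).1
        rw [sum_ncl x0 x1] at m1
        have m2 := mul_le_mul_of_nonneg_left x3 hd.le
        unfold nn at m2
        have m3 : d * c ≤ d * c₀ := mul_le_mul_of_nonneg_left ((le_abs_self c).trans hc) hd.le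
        rw [hh1] at h3 ⊢
        have m4 : κ * (m - 1) ≤ κ * (d * hgt x) := mul_le_mul_of_nonneg_left h3.le hκ0.le
        push_cast
        linarith)
      refine k1.trans (Real.exp_le_exp.2 ?_)
      have hQm : ph m ≤ Q := by
        rw [hQ]
        exact (g1 m (by linarith) hmX).2
      have hlm : 0 ≤ Real.log m := Real.log_nonneg (by linarith)
      have e1 : √(8 * ((3 : ℕ) : ℝ) * (κ * (m - 1) - d * c₀) / Real.log m) ≤ σ * Q := by
        have h1 : 8 * ((3 : ℕ) : ℝ) * (κ * (m - 1) - d * c₀) / Real.log m ≤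
            24 * κ * (m / Real.log m) := by
          have h2 : 24 * κ * (m / Real.log m) = 24 * κ * m / Real.log m := by ring
          rw [h2]
          apply div_le_div_of_nonneg_right _ hlm
          push_cast
          linarith
        refine (Real.sqrt_le_sqrt h1).trans ?_
        rw [Real.sqrt_mul (by positivity), ← hσ]
        exact mul_le_mul_of_nonneg_left hQm hσ0
      have e2 : (1 + ε₁) * √(8 * ((3 : ℕ) : ℝ) * (κ * (m - 1) - d * c₀) / Real.log m) ≤
          (1 + ε₁) * (σ * Q) := mul_le_mul_of_nonneg_left e1 (by linarith)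
      have e3 : (2 - κ) * m ≤ (2 - κ) * X := mul_le_mul_of_nonneg_left hmX (by linarith)
      linarith
    refine (Finset.sum_le_sum hfib).trans ?_
    rw [Finset.sum_const, nsmul_eq_mul, card_range]
    apply mul_le_mul_of_nonneg_right _ (Real.exp_pos _).le
    push_cast
    have := Nat.floor_le hX0.le
    linarith
  have c2 : 2 * (F₁.card : ℝ) ≤ Real.exp M := by
    have two : (2 : ℝ) ≤ Real.exp 1 := by
      have := Real.add_one_le_exp (1 : ℝ)
      linarith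
    have e1 : (X + 1) * Real.exp (1 + d * c₀) ≤ Real.exp (ε₃ * (3 * Q)) := by
      have h1 : (X + 1) * Real.exp (1 + d * c₀) ≤ E * (X + E) ^ 1 := by
        rw [pow_one]
        have h2 := Real.exp_pos (1 + d * c₀)
        have h3 : Real.exp (1 + d * c₀) ≤ E := by rw [hE]; linarith
        have h4 : X + 1 ≤ X + E := by rw [hE]; linarith
        calc (X + 1) * Real.exp (1 + d * c₀) = Real.exp (1 + d * c₀) * (X + 1) := by ring
          _ ≤ E * (X + E) := mul_le_mul h3 h4 (by linarith) hE0.le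
      refine (h1.trans g3).trans (Real.exp_le_exp.2 ?_)
      apply mul_le_mul_of_nonneg_left _ hε₃0.le
      rw [mul_div_assoc, Real.sqrt_mul (by norm_num)]
      have h5 : √8 ≤ (3 : ℝ) := by rw [Real.sqrt_le_left (by norm_num)]; norm_num
      have h6 : √(X / Real.log X) = Q := by rw [hQ]; rfl
      rw [h6]
      exact mul_le_mul_of_nonneg_right h5 hQ0
    have e2 : ε₃ * (3 * Q) ≤ ε / 8 * W := by
      have h1 : ε₃ * (3 * Q) ≤ ε₃ * (3 * ((√d + ε₂) * W)) :=
        mul_le_mul_of_nonneg_left (by linarith) hε₃0.le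
      refine h1.trans (le_of_eq ?_)
      rw [hε₃]
      field_simp
      ring
    have e3 : (1 + ε₁) * (σ * Q) ≤ (√(24 * κ * d) + ε / 4) * W := by
      have h1 : σ * √d = √(24 * κ * d) := by rw [hσ, ← Real.sqrt_mul (by positivity)]
      have h2 : (1 + ε₁) * (σ * Q) ≤ (1 + ε₁) * (σ * ((√d + ε₂) * W)) :=
        mul_le_mul_of_nonneg_left (mul_le_mul_of_nonneg_left hQW hσ0) (by linarith)
      refine h2.trans ?_
      have h3 : (1 + ε₁) * (σ * ((√d + ε₂) * W)) =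
          (σ * √d + σ * (ε₁ * √d) + (1 + ε₁) * (σ * ε₂)) * W := by ring
      rw [h3, h1]
      apply mul_le_mul_of_nonneg_right _ hW0
      have h4 : σ * (ε₁ * √d) ≤ 5 * (ε / 40) :=
        mul_le_mul hσ5 hε₁2 (by positivity) (by norm_num)
      have h5 : (1 + ε₁) * (σ * ε₂) ≤ 2 * (5 * (ε / 80)) := by
        rw [hε₂]
        apply mul_le_mul (by linarith) _ (by positivity) (by norm_num)
        exact mul_le_mul_of_nonneg_right hσ5 (by positivity)
      linarith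
    have e4 : 1 ≤ ε / 2 * W := by
      rw [div_le_iff₀ hε] at g4
      linarith
    calc 2 * (F₁.card : ℝ) ≤ Real.exp 1 * ((X + 1) * Real.exp ((2 - κ) * X + (1 + d * c₀) +
          (1 + ε₁) * (σ * Q))) := mul_le_mul two c1 (Nat.cast_nonneg _) (Real.exp_pos _).le
      _ = Real.exp 1 * (((X + 1) * Real.exp (1 + d * c₀)) *
          Real.exp ((2 - κ) * X + (1 + ε₁) * (σ * Q))) := by
          rw [mul_assoc (X + 1), ← Real.exp_add]
          congr 3
          ring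
      _ ≤ Real.exp 1 * (Real.exp (ε₃ * (3 * Q)) *
          Real.exp ((2 - κ) * X + (1 + ε₁) * (σ * Q))) := by
          apply mul_le_mul_of_nonneg_left _ (Real.exp_pos _).le
          exact mul_le_mul_of_nonneg_right e1 (Real.exp_pos _).le
      _ ≤ _ := by
          rw [← Real.exp_add, ← Real.exp_add]
          apply Real.exp_le_exp.2
          rw [hM, hX]
          have : 0 ≤ ε * W := by positivity
          linarith
  linarith

/-- the second order law, uniformly in the exponent -/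
theorem uni (z : InfinitePlace K → ℂ) (η : ℝ) (hz : ∀ w, w.IsReal → (z w).im = 0)
    (hη : 0 < η) {a b c₀ : ℝ} (ha : 0 < a) (hab : a ≤ b) (hb : b < 1) (hc₀ : 0 ≤ c₀) {ε : ℝ}
    (hε : 0 < ε) :
    ∀ᶠ B : ℝ in atTop, ∀ κ c : ℝ, a ≤ κ → κ ≤ b → |c| ≤ c₀ →
      |(Real.log ((XQ z η κ c B).ncard : ℝ) - finrank ℚ K * (2 - κ) * Real.log B) /
        √(Real.log B / Real.log (Real.log B)) - √(24 * κ * finrank ℚ K)| ≤ ε := by
  filter_upwards [low_uni z η hz hη ha hab hb hc₀ hε, up_uni z η hz hη ha hab hb hc₀ hε,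
    Real.tendsto_log_atTop.eventually (W_large 1)] with B g1 g2 g3 κ c h1 h2 h3
  have k1 := g1 κ c h1 h2 h3
  have k2 := g2 κ c h1 h2 h3
  obtain ⟨W, hW⟩ : ∃ W : ℝ, W = √(Real.log B / Real.log (Real.log B)) := ⟨_, rfl⟩
  rw [← hW] at k1 k2 g3 ⊢
  have hW0 : 0 < W := by linarith
  have hN : (0 : ℝ) < (XQ z η κ c B).ncard := lt_of_lt_of_le (Real.exp_pos _) k1
  rw [← Real.le_log_iff_exp_le hN] at k1
  rw [← Real.log_le_iff_le_exp hN] at k2
  rw [abs_le]
  constructor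
  · have : √(24 * κ * finrank ℚ K) - ε ≤
        (Real.log ((XQ z η κ c B).ncard : ℝ) - finrank ℚ K * (2 - κ) * Real.log B) / W := by
      rw [le_div_iff₀ hW0]
      linarith
    linarith
  · have : (Real.log ((XQ z η κ c B).ncard : ℝ) - finrank ℚ K * (2 - κ) * Real.log B) / W ≤
        √(24 * κ * finrank ℚ K) + ε := by
      rw [div_le_iff₀ hW0]
      linarith
    linarith

end Pool.Agent.N906.LD
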